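import Mathlib

set_option autoImplicit false

/-!
# Equivariant bijections with prescribed values
-/

namespace Pool.Agent.MP3f0e40

section Ext

variable {C Ω : Type*} [Group C]

/-- the orbit relation of an action given by a homomorphism -/
def orb (α : C →* Equiv.Perm Ω) : Setoid Ω where
  r v w := ∃ c, α c v = w
  iseqv := by
    refine ⟨fun v => ⟨1, by simp⟩, ?_, ?_⟩
    · rintro v w ⟨c, rfl⟩
      exact ⟨c⁻¹, by simp⟩
    · rintro u v w ⟨c, rfl⟩ ⟨d, rfl⟩
      exact ⟨d * c, by simp⟩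

theorem orb_iff (α : C →* Equiv.Perm Ω) (v w : Ω) :
    (Quotient.mk (orb α) v = Quotient.mk (orb α) w) ↔ ∃ c, α c v = w := by
  rw [Quotient.eq]
  rfl

theorem orb_act (α : C →* Equiv.Perm Ω) (c : C) (v : Ω) :
    Quotient.mk (orb α) (α c v) = Quotient.mk (orb α) v :=
  ((orb_iff α _ _).2 ⟨c, rfl⟩).symm

theorem decomp (α : C →* Equiv.Perm Ω) (S : Subgroup C) (hS : ∀ c v, α c v = v ↔ c ∈ S)
    (rep : Quotient (orb α) → Ω) (hrep : ∀ o, Quotient.mk (orb α) (rep o) = o) :
    ∃ E : (Quotient (orb α) × (C ⧸ S)) ≃ Ω, ∀ (o : Quotient (orb α)) (c : C),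
      E (o, (c : C ⧸ S)) = α c (rep o) := by
  let f : (Quotient (orb α) × (C ⧸ S)) → Ω := fun p =>
    Quotient.liftOn' p.2 (fun c => α c (rep p.1)) (by
      intro a b hab
      have h1 : a⁻¹ * b ∈ S := QuotientGroup.leftRel_apply.1 hab
      have h2 := (hS (a⁻¹ * b) (rep p.1)).2 h1
      show α a (rep p.1) = α b (rep p.1)
      conv_lhs => rw [← h2]
      simp)
  have hf : ∀ (o : Quotient (orb α)) (c : C), f (o, (c : C ⧸ S)) = α c (rep o) := fun o c => rfl
  have hinj : Function.Injective f := by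
    rintro ⟨o, x⟩ ⟨o', x'⟩ h
    induction x using QuotientGroup.induction_on with
    | H c =>
    induction x' using QuotientGroup.induction_on with
    | H c' =>
    rw [hf, hf] at h
    have h1 : o = o' := by
      rw [← hrep o, ← hrep o', ← orb_act α c (rep o), ← orb_act α c' (rep o'), h]
    subst h1
    have h2 : α (c⁻¹ * c') (rep o) = rep o := by
      rw [map_mul, Equiv.Perm.mul_apply, ← h]
      simp
    have h3 := (hS _ _).1 h2
    have h4 : (c : C ⧸ S) = (c' : C ⧸ S) := QuotientGroup.eq.2 h3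
    rw [h4]
  have hsurj : Function.Surjective f := by
    intro v
    have h1 := hrep (Quotient.mk (orb α) v)
    obtain ⟨c, hc⟩ := (orb_iff α _ _).1 h1
    exact ⟨(Quotient.mk (orb α) v, (c : C ⧸ S)), by rw [hf, hc]⟩
  exact ⟨Equiv.ofBijective f ⟨hinj, hsurj⟩, hf⟩

theorem exists_rep {J : Type*} (α : C →* Equiv.Perm Ω) (x : J → Ω)
    (hx : ∀ j k c, α c (x j) = x k → j = k) :
    ∃ rep : Quotient (orb α) → Ω, (∀ o, Quotient.mk (orb α) (rep o) = o) ∧
      ∀ j, rep (Quotient.mk (orb α) (x j)) = x j := by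
  classical
  refine ⟨fun o => if h : ∃ j, Quotient.mk (orb α) (x j) = o then x h.choose else o.out, ?_, ?_⟩
  · intro o
    by_cases h : ∃ j, Quotient.mk (orb α) (x j) = o
    · simp only [h, dif_pos]
      exact h.choose_spec
    · simp only [h, dif_neg, not_false_eq_true]
      exact Quotient.out_eq o
  · intro j
    have h : ∃ k, Quotient.mk (orb α) (x k) = Quotient.mk (orb α) (x j) := ⟨j, rfl⟩
    simp only [h, dif_pos]
    obtain ⟨c, hc⟩ := (orb_iff α _ _).1 h.choose_spec
    rw [hx _ _ c hc]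

theorem exists_equiv_extend {J O P : Type*} [Finite O] [Finite P] (hcard : Nat.card O = Nat.card P)
    (f : J → O) (g : J → P) (hf : Function.Injective f) (hg : Function.Injective g) :
    ∃ π : O ≃ P, ∀ j, π (f j) = g j := by
  classical
  have := Fintype.ofFinite O
  have := Fintype.ofFinite P
  rcases isEmpty_or_nonempty J with hJ | hJ
  · exact ⟨Fintype.equivOfCardEq (by simpa [Nat.card_eq_fintype_card] using hcard), fun j => isEmptyElim j⟩
  have h1 : Fintype.card O = (Finset.univ : Finset P).card := by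
    rw [Finset.card_univ, ← Nat.card_eq_fintype_card, ← Nat.card_eq_fintype_card, hcard]
  have : Nonempty P := ⟨g hJ.some⟩
  obtain ⟨e, he⟩ := Set.MapsTo.exists_equiv_extend_of_card_eq h1 (s := Set.range f)
    (f := fun o => g (Function.invFun f o)) (fun _ _ => Finset.mem_coe.2 (Finset.mem_univ _)) (by
      rintro _ ⟨j, rfl⟩ _ ⟨k, rfl⟩ h
      simp only [Function.leftInverse_invFun hf _] at h
      rw [hg h])
  refine ⟨e.trans ((Equiv.subtypeUnivEquiv fun x => Finset.mem_univ x)), fun j => ?_⟩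
  have := he (f j) ⟨j, rfl⟩
  simp only [Function.leftInverse_invFun hf _] at this
  exact this

/-- Two actions of a group with the same stabilisers (all equal) on a finite set: there is an
equivariant bijection with prescribed values on representatives of distinct orbits. -/
theorem ext_equivariant {J : Type*} [Finite Ω] (α β : C →* Equiv.Perm Ω)
    (hst : ∀ c x y, α c x = x ↔ β c y = y) (x z : J → Ω)
    (hx : ∀ j k c, α c (x j) = x k → j = k) (hz : ∀ j k c, β c (z j) = z k → j = k) :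
    ∃ τ : Equiv.Perm Ω, (∀ c v, τ (α c v) = β c (τ v)) ∧ ∀ j, τ (x j) = z j := by
  classical
  rcases isEmpty_or_nonempty Ω with hΩ | ⟨⟨ω⟩⟩
  · exact ⟨1, fun c v => isEmptyElim v, fun j => isEmptyElim (x j)⟩
  let S : Subgroup C :=
    { carrier := {c | α c ω = ω}
      mul_mem' := by
        intro a b ha hb
        simp only [Set.mem_ofPred_eq] at ha hb ⊢
        rw [map_mul, Equiv.Perm.mul_apply, hb, ha]
      one_mem' := by simp
      inv_mem' := by
        intro a ha
        simp only [Set.mem_ofPred_eq] at ha ⊢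
        rw [map_inv, Equiv.Perm.inv_eq_iff_eq, ha] }
  have hSβ : ∀ c v, β c v = v ↔ c ∈ S := fun c v => (hst c ω v).symm
  have hSα : ∀ c v, α c v = v ↔ c ∈ S := fun c v => (hst c v v).trans (hSβ c v)
  obtain ⟨rα, hrα, hrα'⟩ := exists_rep α x hx
  obtain ⟨rβ, hrβ, hrβ'⟩ := exists_rep β z hz
  obtain ⟨Eα, hEα⟩ := decomp α S hSα rα hrα
  obtain ⟨Eβ, hEβ⟩ := decomp β S hSβ rβ hrβ
  have : Finite (C ⧸ S) := Finite.of_injective
    (fun y : C ⧸ S => Eα (Quotient.mk (orb α) ω, y)) (fun a b h => by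
      have := Eα.injective h
      exact (Prod.mk.injEq _ _ _ _ ▸ this).2)
  have : Finite (Quotient (orb α)) := Quotient.finite _
  have : Finite (Quotient (orb β)) := Quotient.finite _
  have hcard : Nat.card (Quotient (orb α)) = Nat.card (Quotient (orb β)) := by
    have h1 := Nat.card_congr Eα
    have h2 := Nat.card_congr Eβ
    rw [Nat.card_prod] at h1 h2
    have h3 : 0 < Nat.card (C ⧸ S) := Nat.card_pos
    exact Nat.eq_of_mul_eq_mul_right h3 (h1.trans h2.symm)
  obtain ⟨π, hπ⟩ := exists_equiv_extend hcard (fun j => Quotient.mk (orb α) (x j))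
    (fun j => Quotient.mk (orb β) (z j))
    (fun j k h => by
      obtain ⟨c, hc⟩ := (orb_iff α _ _).1 h
      exact hx j k c hc)
    (fun j k h => by
      obtain ⟨c, hc⟩ := (orb_iff β _ _).1 h
      exact hz j k c hc)
  let τ : Equiv.Perm Ω := Eα.symm.trans ((Equiv.prodCongr π (Equiv.refl _)).trans Eβ)
  have hτ : ∀ (o : Quotient (orb α)) (c : C), τ (Eα (o, (c : C ⧸ S))) = β c (rβ (π o)) := by
    intro o c
    show Eβ ((Equiv.prodCongr π (Equiv.refl _)) (Eα.symm (Eα (o, (c : C ⧸ S))))) = _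
    rw [Equiv.symm_apply_apply]
    exact hEβ _ _
  refine ⟨τ, ?_, ?_⟩
  · intro c v
    obtain ⟨⟨o, y⟩, rfl⟩ := Eα.surjective v
    induction y using QuotientGroup.induction_on with
    | H d =>
    have h1 : α c (Eα (o, (d : C ⧸ S))) = Eα (o, ((c * d : C) : C ⧸ S)) := by
      rw [hEα, hEα, map_mul, Equiv.Perm.mul_apply]
    rw [h1, hτ, hτ, map_mul, Equiv.Perm.mul_apply]
  · intro j
    have h1 : x j = Eα (Quotient.mk (orb α) (x j), ((1 : C) : C ⧸ S)) := by
      rw [hEα, hrα']
      simp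
    have h2 := hτ (Quotient.mk (orb α) (x j)) 1
    rw [← h1] at h2
    rw [h2, hπ, hrβ']
    simp

end Ext

end Pool.Agent.MP3f0e40
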