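import Pool.Agent.Lib.MP_3f0e40_al.Ext

set_option autoImplicit false

/-!
# Residual finiteness of HNN extensions: a criterion

The group `I` is given by a base group `B`, a stable letter `t` and the relations
`t * i1 c * t⁻¹ = i0 c`. No normal form theorem is used.
-/

namespace Pool.Agent.MP3f0e40

section Hnn

variable {B C I : Type} [Group B] [Group C] [Group I]

/-- `t` or its inverse -/
def sgn {I : Type} [Group I] (t : I) (e : Bool) : I := bif e then t else t⁻¹

/-- the value of the word `b 0 * t ^ e 0 * b 1 * ... * b n` -/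
def val (ι : B →* I) (t : I) (b : ℕ → B) (e : ℕ → Bool) : ℕ → I
  | 0 => ι (b 0)
  | n + 1 => val ι t b e n * sgn t (e n) * ι (b (n + 1))

/-- reduced words -/
def Red (i0 i1 : C →* B) (b : ℕ → B) (e : ℕ → Bool) (n : ℕ) : Prop :=
  ∀ k, k + 1 < n → (e k = true → e (k + 1) = false → ∀ c, b (k + 1) ≠ i1 c) ∧
    (e k = false → e (k + 1) = true → ∀ c, b (k + 1) ≠ i0 c)

theorem val_congr (ι : B →* I) (t : I) {b b' : ℕ → B} {e e' : ℕ → Bool} (n : ℕ)
    (hb : ∀ k ≤ n, b k = b' k) (he : ∀ k < n, e k = e' k) :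
    val ι t b e n = val ι t b' e' n := by
  induction n with
  | zero => simp [val, hb 0 le_rfl]
  | succ n ih =>
    rw [val, val, ih (fun k hk => hb k (by omega)) (fun k hk => he k (by omega)), he n (by omega),
      hb (n + 1) le_rfl]

theorem red_congr (i0 i1 : C →* B) {b b' : ℕ → B} {e e' : ℕ → Bool} (n : ℕ)
    (hb : ∀ k < n, b k = b' k) (he : ∀ k < n, e k = e' k) (h : Red i0 i1 b e n) :
    Red i0 i1 b' e' n := by
  intro k hk
  have := h k hk
  rw [← hb (k + 1) hk, ← he k (by omega), ← he (k + 1) hk]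
  exact this

/-- the elements with a reduced form -/
def Has (ι : B →* I) (t : I) (i0 i1 : C →* B) (g : I) : Prop :=
  ∃ n b e, Red i0 i1 b e n ∧ val ι t b e n = g

theorem has_mul_base (ι : B →* I) (t : I) (i0 i1 : C →* B) (g : I) (x : B)
    (h : Has ι t i0 i1 g) : Has ι t i0 i1 (g * ι x) := by
  obtain ⟨n, b, e, hr, rfl⟩ := h
  refine ⟨n, Function.update b n (b n * x), e, ?_, ?_⟩
  · refine red_congr i0 i1 n (fun k hk => ?_) (fun _ _ => rfl) hr
    rw [Function.update_of_ne (by omega)]
  · cases n with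
    | zero => simp [val]
    | succ n =>
      rw [val, val, Function.update_self, map_mul]
      simp only [mul_assoc]
      congr 1
      refine val_congr ι t n (fun k hk => ?_) (fun _ _ => rfl)
      rw [Function.update_of_ne (by omega)]

theorem has_mul_sgn (ι : B →* I) (t : I) (i0 i1 : C →* B)
    (hrel : ∀ c, t * ι (i1 c) * t⁻¹ = ι (i0 c)) (g : I) (ε : Bool)
    (h : Has ι t i0 i1 g) : Has ι t i0 i1 (g * sgn t ε) := by
  obtain ⟨n, b, e, hr, rfl⟩ := h
  have happ : (∀ m, n = m + 1 → (e m = true → ε = false → ∀ c, b (m + 1) ≠ i1 c) ∧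
      (e m = false → ε = true → ∀ c, b (m + 1) ≠ i0 c)) →
      Has ι t i0 i1 (val ι t b e n * sgn t ε) := by
    intro hm
    refine ⟨n + 1, Function.update b (n + 1) 1, Function.update e n ε, ?_, ?_⟩
    · intro k hk
      rcases Nat.lt_or_ge (k + 1) n with h1 | h1
      · have := hr k h1
        rw [Function.update_of_ne (by omega), Function.update_of_ne (by omega),
          Function.update_of_ne (by omega)]
        exact this
      · have h2 : n = k + 1 := by omega
        subst h2
        rw [Function.update_self, Function.update_of_ne (by omega : k ≠ k + 1),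
          Function.update_of_ne (by omega : k + 1 ≠ k + 1 + 1)]
        exact hm k rfl
    · rw [val, Function.update_self, Function.update_self, map_one, mul_one]
      congr 1
      exact val_congr ι t n (fun k hk => by rw [Function.update_of_ne (by omega)])
        (fun k hk => by rw [Function.update_of_ne (by omega)])
  cases n with
  | zero => exact happ (fun m hm => by omega)
  | succ m =>
    have hcol : ∀ x : B, sgn t (e m) * ι (b (m + 1)) * sgn t ε = ι x →
        Has ι t i0 i1 (val ι t b e (m + 1) * sgn t ε) := by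
      intro x hx
      have h1 : Has ι t i0 i1 (val ι t b e m) :=
        ⟨m, b, e, fun k hk => hr k (by omega), rfl⟩
      have h2 := has_mul_base ι t i0 i1 _ x h1
      have h3 : val ι t b e m * ι x = val ι t b e (m + 1) * sgn t ε := by
        rw [← hx, val]
        simp only [mul_assoc]
      rwa [← h3]
    by_cases h1 : e m = true ∧ ε = false ∧ ∃ c, b (m + 1) = i1 c
    · obtain ⟨h1, h2, c, h3⟩ := h1
      refine hcol (i0 c) ?_
      rw [h1, h2, h3]
      exact hrel c
    by_cases h2 : e m = false ∧ ε = true ∧ ∃ c, b (m + 1) = i0 c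
    · obtain ⟨h1, h2, c, h3⟩ := h2
      refine hcol (i1 c) ?_
      rw [h1, h2, h3, ← hrel c]
      simp [sgn, mul_assoc]
    refine happ (fun m' hm' => ?_)
    obtain rfl : m = m' := by omega
    exact ⟨fun h3 h4 c h5 => h1 ⟨h3, h4, c, h5⟩, fun h3 h4 c h5 => h2 ⟨h3, h4, c, h5⟩⟩

theorem has_all (ι : B →* I) (t : I) (i0 i1 : C →* B)
    (hrel : ∀ c, t * ι (i1 c) * t⁻¹ = ι (i0 c))
    (hgen : Subgroup.closure (Set.range ι ∪ {t}) = ⊤) (g : I) : Has ι t i0 i1 g := by
  have hg : g ∈ Subgroup.closure (Set.range ι ∪ {t}) := by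
    rw [hgen]
    exact Subgroup.mem_top g
  induction hg using Subgroup.closure_induction_right with
  | one => exact ⟨0, fun _ => 1, fun _ => true, fun k hk => by omega, by simp [val]⟩
  | mul_right x hx y hy ih =>
    rcases hy with ⟨b, rfl⟩ | hy
    · exact has_mul_base ι t i0 i1 x b ih
    · rw [Set.mem_singleton_iff.1 hy]
      exact has_mul_sgn ι t i0 i1 hrel x true ih
  | mul_inv_cancel x hx y hy ih =>
    rcases hy with ⟨b, rfl⟩ | hy
    · rw [← map_inv]
      exact has_mul_base ι t i0 i1 x b⁻¹ ih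
    · rw [Set.mem_singleton_iff.1 hy]
      exact has_mul_sgn ι t i0 i1 hrel x false ih

/-- left multiplication on copies of a quotient -/
def cop (N : Subgroup B) (m : ℕ) : B →* Equiv.Perm ((B ⧸ N) × Fin m) where
  toFun b := Equiv.prodCongr (MulAction.toPerm b) (Equiv.refl _)
  map_one' := by
    ext ⟨q, i⟩ <;> simp
  map_mul' a b := by
    ext ⟨q, i⟩ <;> simp [mul_smul]

theorem cop_apply (N : Subgroup B) (m : ℕ) (b : B) (q : B ⧸ N) (i : Fin m) :
    cop N m b (q, i) = (b • q, i) := rfl

theorem smul_eq_iff (N : Subgroup B) [hN : N.Normal] (b : B) (q : B ⧸ N) : b • q = q ↔ b ∈ N := by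
  induction q using QuotientGroup.induction_on with
  | H g =>
  rw [MulAction.Quotient.smul_coe, smul_eq_mul, eq_comm, QuotientGroup.eq]
  constructor
  · intro h
    have := hN.conj_mem _ h g
    simpa [mul_assoc] using this
  · intro h
    have := hN.conj_mem _ h g⁻¹
    simpa [mul_assoc] using this

theorem notMem_comm {N : Subgroup B} [hN : N.Normal] {a b : B} (h : a * b ∈ N) : b * a ∈ N :=
  hN.mem_comm h

/-- The criterion. -/
theorem criterion (ι : B →* I) (t : I) (i0 i1 : C →* B)
    (hrel : ∀ c, t * ι (i1 c) * t⁻¹ = ι (i0 c))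
    (hgen : Subgroup.closure (Set.range ι ∪ {t}) = ⊤)
    (huniv : ∀ (Ω : Type) [Finite Ω] (ψ : B →* Equiv.Perm Ω) (τ : Equiv.Perm Ω),
      (∀ c, τ * ψ (i1 c) = ψ (i0 c) * τ) → ∃ Φ : I →* Equiv.Perm Ω, (∀ b, Φ (ι b) = ψ b) ∧ Φ t = τ)
    (hsep : ∀ T : Finset B, ∃ N : Subgroup B, N.Normal ∧ N.FiniteIndex ∧
      (∀ c, i0 c ∈ N ↔ i1 c ∈ N) ∧ ∀ b ∈ T, (b ≠ 1 → b ∉ N) ∧
        ((∀ c, b ≠ i0 c) → ∀ c, b * (i0 c)⁻¹ ∉ N) ∧ ((∀ c, b ≠ i1 c) → ∀ c, b * (i1 c)⁻¹ ∉ N)) :
    Group.ResiduallyFinite I := by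
  classical
  apply Group.residuallyFinite_of_forall_exists_finite_monoidHom
  intro g hg
  obtain ⟨n, b, e, hr, rfl⟩ := has_all ι t i0 i1 hrel hgen g
  obtain ⟨N, hN, hfin, hN01, hT⟩ := hsep ((Finset.range (n + 1)).image b)
  have hT' : ∀ k ≤ n, (b k ≠ 1 → b k ∉ N) ∧
        ((∀ c, b k ≠ i0 c) → ∀ c, b k * (i0 c)⁻¹ ∉ N) ∧
        ((∀ c, b k ≠ i1 c) → ∀ c, b k * (i1 c)⁻¹ ∉ N) := fun k hk =>
    hT (b k) (Finset.mem_image.2 ⟨k, Finset.mem_range.2 (by omega), rfl⟩)
  have : Finite (B ⧸ N) := inferInstance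
  let Ω := (B ⧸ N) × Fin (n + 1)
  let ψ : B →* Equiv.Perm Ω := cop N (n + 1)
  let x : Fin n → Ω := fun k => if e k then (((b (k + 1) : B) : B ⧸ N), k.succ)
    else (((1 : B) : B ⧸ N), k.castSucc)
  let z : Fin n → Ω := fun k => if e k then (((1 : B) : B ⧸ N), k.castSucc)
    else (((b (k + 1) : B) : B ⧸ N), k.succ)
  have hfix : ∀ (a : B) (v : Ω), ψ a v = v ↔ a ∈ N := by
    rintro a ⟨q, i⟩
    rw [show ψ a (q, i) = (a • q, i) from rfl, Prod.mk.injEq]
    simp [smul_eq_iff]
  -- the basic incompatibility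
  have key1 : ∀ (k : ℕ), k ≤ n → (∀ c, b k ≠ i1 c) →
      (∀ c, (i1 c) • ((b k : B) : B ⧸ N) ≠ ((1 : B) : B ⧸ N)) ∧
      (∀ c, (i1 c) • ((1 : B) : B ⧸ N) ≠ ((b k : B) : B ⧸ N)) := by
    intro k hk h
    refine ⟨fun c hc => ?_, fun c hc => ?_⟩
    · rw [MulAction.Quotient.smul_coe, smul_eq_mul, eq_comm, QuotientGroup.eq, inv_one,
        one_mul] at hc
      have h1 := notMem_comm hc
      have h2 := (hT' k hk).2.2 h c⁻¹
      rw [map_inv, inv_inv] at h2
      exact h2 h1
    · rw [MulAction.Quotient.smul_coe, smul_eq_mul, mul_one, QuotientGroup.eq] at hc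
      exact (hT' k hk).2.2 h c (notMem_comm hc)
  have key0 : ∀ (k : ℕ), k ≤ n → (∀ c, b k ≠ i0 c) →
      (∀ c, (i0 c) • ((b k : B) : B ⧸ N) ≠ ((1 : B) : B ⧸ N)) ∧
      (∀ c, (i0 c) • ((1 : B) : B ⧸ N) ≠ ((b k : B) : B ⧸ N)) := by
    intro k hk h
    refine ⟨fun c hc => ?_, fun c hc => ?_⟩
    · rw [MulAction.Quotient.smul_coe, smul_eq_mul, eq_comm, QuotientGroup.eq, inv_one,
        one_mul] at hc
      have h1 := notMem_comm hc
      have h2 := (hT' k hk).2.1 h c⁻¹
      rw [map_inv, inv_inv] at h2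
      exact h2 h1
    · rw [MulAction.Quotient.smul_coe, smul_eq_mul, mul_one, QuotientGroup.eq] at hc
      exact (hT' k hk).2.1 h c (notMem_comm hc)
  obtain ⟨τ, hτ1, hτ2⟩ := ext_equivariant (ψ.comp i1) (ψ.comp i0)
    (fun c v w => by
      show ψ (i1 c) v = v ↔ ψ (i0 c) w = w
      rw [hfix, hfix, hN01]) x z
    (by
      intro j k c h
      have h' : ψ (i1 c) (x j) = x k := h
      by_cases hj : e j = true <;> by_cases hk : e k = true
      · simp only [x, hj, hk, if_true] at h'
        rw [show ψ (i1 c) (((b (j + 1) : B) : B ⧸ N), j.succ) =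
          ((i1 c) • ((b (j + 1) : B) : B ⧸ N), j.succ) from rfl, Prod.mk.injEq] at h'
        exact Fin.succ_injective _ h'.2
      · simp only [x, hj, hk, if_true, if_false, Bool.false_eq_true] at h'
        rw [show ψ (i1 c) (((b (j + 1) : B) : B ⧸ N), j.succ) =
          ((i1 c) • ((b (j + 1) : B) : B ⧸ N), j.succ) from rfl, Prod.mk.injEq] at h'
        have h2 : (j : ℕ) + 1 = k := by
          have := congrArg Fin.val h'.2
          simpa using this
        have h3 := (hr j (by have := k.2; omega)).1 hj (by rw [h2]; simpa using hk)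
        exact absurd h'.1 ((key1 (j + 1) (by have := j.2; omega) h3).1 c)
      · simp only [x, hj, hk, if_true, if_false, Bool.false_eq_true] at h'
        rw [show ψ (i1 c) (((1 : B) : B ⧸ N), j.castSucc) =
          ((i1 c) • ((1 : B) : B ⧸ N), j.castSucc) from rfl, Prod.mk.injEq] at h'
        have h2 : (k : ℕ) + 1 = j := by
          have := congrArg Fin.val h'.2
          simpa using this.symm
        have h3 := (hr k (by have := j.2; omega)).1 hk (by rw [h2]; simpa using hj)
        exact absurd h'.1 ((key1 (k + 1) (by have := k.2; omega) h3).2 c)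
      · simp only [x, hj, hk, if_false, Bool.false_eq_true] at h'
        rw [show ψ (i1 c) (((1 : B) : B ⧸ N), j.castSucc) =
          ((i1 c) • ((1 : B) : B ⧸ N), j.castSucc) from rfl, Prod.mk.injEq] at h'
        exact Fin.castSucc_injective _ h'.2)
    (by
      intro j k c h
      have h' : ψ (i0 c) (z j) = z k := h
      by_cases hj : e j = true <;> by_cases hk : e k = true
      · simp only [z, hj, hk, if_true] at h'
        rw [show ψ (i0 c) (((1 : B) : B ⧸ N), j.castSucc) =
          ((i0 c) • ((1 : B) : B ⧸ N), j.castSucc) from rfl, Prod.mk.injEq] at h'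
        exact Fin.castSucc_injective _ h'.2
      · simp only [z, hj, hk, if_true, if_false, Bool.false_eq_true] at h'
        rw [show ψ (i0 c) (((1 : B) : B ⧸ N), j.castSucc) =
          ((i0 c) • ((1 : B) : B ⧸ N), j.castSucc) from rfl, Prod.mk.injEq] at h'
        have h2 : (k : ℕ) + 1 = j := by
          have := congrArg Fin.val h'.2
          simpa using this.symm
        have h3 := (hr k (by have := j.2; omega)).2 (by simpa using hk) (by rw [h2]; exact hj)
        exact absurd h'.1 ((key0 (k + 1) (by have := k.2; omega) h3).2 c)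
      · simp only [z, hj, hk, if_true, if_false, Bool.false_eq_true] at h'
        rw [show ψ (i0 c) (((b (j + 1) : B) : B ⧸ N), j.succ) =
          ((i0 c) • ((b (j + 1) : B) : B ⧸ N), j.succ) from rfl, Prod.mk.injEq] at h'
        have h2 : (j : ℕ) + 1 = k := by
          have := congrArg Fin.val h'.2
          simpa using this
        have h3 := (hr j (by have := k.2; omega)).2 (by simpa using hj) (by rw [h2]; exact hk)
        exact absurd h'.1 ((key0 (j + 1) (by have := j.2; omega) h3).1 c)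
      · simp only [z, hj, hk, if_false, Bool.false_eq_true] at h'
        rw [show ψ (i0 c) (((b (j + 1) : B) : B ⧸ N), j.succ) =
          ((i0 c) • ((b (j + 1) : B) : B ⧸ N), j.succ) from rfl, Prod.mk.injEq] at h'
        exact Fin.succ_injective _ h'.2)
  obtain ⟨Φ, hΦ1, hΦ2⟩ := huniv Ω ψ τ (fun c => by
    ext1 v
    exact hτ1 c v)
  refine ⟨Equiv.Perm Ω, inferInstance, inferInstance, Φ, ?_⟩
  have hpath : ∀ k (hk : k ≤ n), Φ (val ι t b e k) (((1 : B) : B ⧸ N), ⟨k, by omega⟩) =
      (((b 0 : B) : B ⧸ N), (0 : Fin (n + 1))) := by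
    intro k
    induction k with
    | zero =>
      intro _
      rw [val, hΦ1]
      show (b 0 • ((1 : B) : B ⧸ N), _) = _
      rw [MulAction.Quotient.smul_coe, smul_eq_mul, mul_one]
      rfl
    | succ k ih =>
      intro hk
      rw [val, map_mul, map_mul, hΦ1, Equiv.Perm.mul_apply, Equiv.Perm.mul_apply]
      have h1 : ψ (b (k + 1)) (((1 : B) : B ⧸ N), (⟨k + 1, by omega⟩ : Fin (n + 1))) =
          (((b (k + 1) : B) : B ⧸ N), (⟨k + 1, by omega⟩ : Fin (n + 1))) := by
        show (b (k + 1) • ((1 : B) : B ⧸ N), _) = _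
        rw [MulAction.Quotient.smul_coe, smul_eq_mul, mul_one]
        rfl
      rw [h1]
      have h2 : Φ (sgn t (e k)) (((b (k + 1) : B) : B ⧸ N), (⟨k + 1, by omega⟩ : Fin (n + 1))) =
          (((1 : B) : B ⧸ N), (⟨k, by omega⟩ : Fin (n + 1))) := by
        have h3 := hτ2 ⟨k, by omega⟩
        by_cases he : e k = true
        · simp only [x, z, he, if_true] at h3
          rw [he]
          show Φ t _ = _
          rw [hΦ2]
          exact h3
        · simp only [x, z, he, if_false, Bool.false_eq_true] at h3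
          have he' : e k = false := by simpa using he
          rw [he']
          show Φ t⁻¹ _ = _
          rw [map_inv, hΦ2, Equiv.Perm.inv_eq_iff_eq]
          exact h3.symm
      rw [h2]
      exact ih (by omega)
  have hfinal := hpath n le_rfl
  intro hcon
  rw [hcon, Equiv.Perm.one_apply, Prod.mk.injEq] at hfinal
  have hn : n = 0 := by
    have := congrArg Fin.val hfinal.2
    simpa using this
  subst hn
  apply hg
  have h1 : b 0 ∈ N := by
    have := hfinal.1
    rw [QuotientGroup.eq, inv_one, one_mul] at this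
    exact this
  have h2 : b 0 = 1 := by
    by_contra h
    exact (hT' 0 le_rfl).1 h h1
  rw [val, h2, map_one]

end Hnn

end Pool.Agent.MP3f0e40
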