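import Mathlib

set_option autoImplicit false

/-!
# Unitriangular representations of free groups

For `s ≠ 1` in a free group `F` there is a normal subgroup `K` such that `s` is central modulo `K`
and the powers of `s` are well separated in finite quotients of `F ⧸ K`.
-/

namespace Pool.Agent.MP3f0e40

open Monoid

/-- Powers of `s` are separated with arbitrary precision in finite quotients. -/
def Potent {G : Type} [Group G] (s : G) : Prop :=
  ∀ b : G, ∃ j : ℤ, ∀ n : ℕ, 0 < n → ∃ N : Subgroup G, N.Normal ∧ N.FiniteIndex ∧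
    ∀ i : ℤ, b * s ^ (-i) ∈ N → (n : ℤ) ∣ i - j

theorem finIdx_comap {G H : Type} [Group G] [Group H] (f : G →* H) (N : Subgroup H)
    [hN : N.FiniteIndex] : (N.comap f).FiniteIndex := by
  refine ⟨?_⟩
  rw [Subgroup.index_comap]
  have h : (N.subgroupOf f.range).FiniteIndex := inferInstance
  exact h.index_ne_zero

theorem Potent.comap {G H : Type} [Group G] [Group H] (f : G →* H) {s : G} (h : Potent (f s)) :
    Potent s := by
  intro b
  obtain ⟨j, hj⟩ := h (f b)
  refine ⟨j, fun n hn => ?_⟩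
  obtain ⟨N, h1, h2, h3⟩ := hj n hn
  refine ⟨N.comap f, inferInstance, finIdx_comap f N, fun i hi => h3 i ?_⟩
  rw [Subgroup.mem_comap, map_mul, map_zpow] at hi
  exact hi

section Mat

variable {k : ℕ}

/-- entries below the `e`-th diagonal are divisible by `n` -/
def D (n : ℤ) (e : ℕ) (A : Matrix (Fin (k + 1)) (Fin (k + 1)) ℤ) : Prop :=
  ∀ i j : Fin (k + 1), (j : ℕ) < i + e → n ∣ A i j

theorem D.add {n : ℤ} {e : ℕ} {A B : Matrix (Fin (k + 1)) (Fin (k + 1)) ℤ} (hA : D n e A)
    (hB : D n e B) : D n e (A + B) := fun i j h => dvd_add (hA i j h) (hB i j h)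

theorem D.sub {n : ℤ} {e : ℕ} {A B : Matrix (Fin (k + 1)) (Fin (k + 1)) ℤ} (hA : D n e A)
    (hB : D n e B) : D n e (A - B) := fun i j h => dvd_sub (hA i j h) (hB i j h)

theorem D.neg {n : ℤ} {e : ℕ} {A : Matrix (Fin (k + 1)) (Fin (k + 1)) ℤ} (hA : D n e A) :
    D n e (-A) := fun i j h => (dvd_neg).2 (hA i j h)

theorem D.smul {n : ℤ} {e : ℕ} {A : Matrix (Fin (k + 1)) (Fin (k + 1)) ℤ} (c : ℤ)
    (hA : D n e A) : D n e (c • A) := fun i j h => by
  rw [Matrix.smul_apply, smul_eq_mul]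
  exact Dvd.dvd.mul_left (hA i j h) c

theorem D.mono {n : ℤ} {e e' : ℕ} {A : Matrix (Fin (k + 1)) (Fin (k + 1)) ℤ} (hA : D n e A)
    (h : e' ≤ e) : D n e' A := fun i j hij => hA i j (by omega)

theorem D.of_zero {e : ℕ} {A : Matrix (Fin (k + 1)) (Fin (k + 1)) ℤ} (n : ℤ) (hA : D 0 e A) :
    D n e A := fun i j hij => by
  rw [zero_dvd_iff.1 (hA i j hij)]
  exact dvd_zero n

theorem D.mul {n : ℤ} {e e' : ℕ} {A B : Matrix (Fin (k + 1)) (Fin (k + 1)) ℤ} (hA : D n e A)
    (hB : D 0 e' B) : D n (e + e') (A * B) := by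
  intro i j h
  rw [Matrix.mul_apply]
  refine Finset.dvd_sum fun l _ => ?_
  rcases Nat.lt_or_ge l (i + e) with h1 | h1
  · exact Dvd.dvd.mul_right (hA i l h1) _
  · rw [zero_dvd_iff.1 (hB l j (by omega)), mul_zero]
    exact dvd_zero n

theorem D.mul' {n : ℤ} {e e' : ℕ} {A B : Matrix (Fin (k + 1)) (Fin (k + 1)) ℤ} (hA : D 0 e A)
    (hB : D n e' B) : D n (e + e') (A * B) := by
  intro i j h
  rw [Matrix.mul_apply]
  refine Finset.dvd_sum fun l _ => ?_
  rcases Nat.lt_or_ge l (i + e) with h1 | h1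
  · rw [zero_dvd_iff.1 (hA i l h1), zero_mul]
    exact dvd_zero n
  · exact Dvd.dvd.mul_left (hB l j (by omega)) _

theorem D_one (n : ℤ) : D n 0 (1 : Matrix (Fin (k + 1)) (Fin (k + 1)) ℤ) := by
  intro i j h
  rw [Matrix.one_apply_ne (by
    intro h1
    rw [h1] at h
    omega)]
  exact dvd_zero n

theorem D_zero (n : ℤ) (e : ℕ) : D n e (0 : Matrix (Fin (k + 1)) (Fin (k + 1)) ℤ) := by
  intro i j h
  exact dvd_zero n

end Mat

section Rep

variable {Z : Type}

open Classical in
/-- the nilpotent matrix of a letter along a word -/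
noncomputable def X (k : ℕ) (m : ℕ → Option Z) (z : Z) : Matrix (Fin (k + 1)) (Fin (k + 1)) ℤ :=
  Matrix.of fun i j => if (j : ℕ) = i + 1 ∧ m i = some z then 1 else 0

theorem X_D (k : ℕ) (m : ℕ → Option Z) (z : Z) : D 0 1 (X k m z) := by
  intro i j h
  rw [X, Matrix.of_apply, if_neg (fun h1 => by omega)]

theorem X_sq (k : ℕ) (m : ℕ → Option Z) (hm : ∀ i z, m i = some z → m (i + 1) ≠ some z) (z : Z) :
    X k m z * X k m z = 0 := by
  ext i j
  rw [Matrix.mul_apply]
  refine Finset.sum_eq_zero fun l _ => ?_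
  rw [X, Matrix.of_apply, Matrix.of_apply]
  by_cases h1 : (l : ℕ) = i + 1 ∧ m i = some z
  · by_cases h2 : (j : ℕ) = l + 1 ∧ m l = some z
    · exact absurd (by rw [← h1.1]; exact h2.2) (hm i z h1.2)
    · rw [if_neg h2, mul_zero]
  · rw [if_neg h1, zero_mul]

/-- the representation of the syllables -/
noncomputable def phi (k : ℕ) (m : ℕ → Option Z)
    (hm : ∀ i z, m i = some z → m (i + 1) ≠ some z) (z : Z) :
    Multiplicative ℤ →* Matrix (Fin (k + 1)) (Fin (k + 1)) ℤ where
  toFun e := 1 + (Multiplicative.toAdd e) • X k m z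
  map_one' := by simp
  map_mul' a b := by
    rw [toAdd_mul, add_smul, mul_add, add_mul, add_mul, mul_one, one_mul, mul_one, smul_mul_smul_comm,
      X_sq k m hm z, smul_zero]
    abel

/-- the representation of the free product -/
noncomputable def rho' (k : ℕ) (m : ℕ → Option Z)
    (hm : ∀ i z, m i = some z → m (i + 1) ≠ some z) :
    CoprodI (fun _ : Z => Multiplicative ℤ) →* Matrix (Fin (k + 1)) (Fin (k + 1)) ℤ :=
  CoprodI.lift (phi k m hm)

theorem rho'_D (k : ℕ) (m : ℕ → Option Z)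
    (hm : ∀ i z, m i = some z → m (i + 1) ≠ some z) (x : CoprodI (fun _ : Z => Multiplicative ℤ)) :
    D 0 1 (rho' k m hm x - 1) := by
  induction x using CoprodI.induction_on with
  | one =>
    rw [map_one, sub_self]
    exact D_zero 0 1
  | of z e =>
    rw [rho', CoprodI.lift_of]
    show D 0 1 (1 + (Multiplicative.toAdd e) • X k m z - 1)
    rw [add_sub_cancel_left]
    exact (X_D k m z).smul _
  | mul x y hx hy =>
    have h1 : rho' k m hm (x * y) - 1 = (rho' k m hm x - 1) * (rho' k m hm y - 1) +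
        ((rho' k m hm x - 1) + (rho' k m hm y - 1)) := by
      rw [map_mul]
      noncomm_ring
    rw [h1]
    exact ((hx.mul hy).mono (by omega)).add (hx.add hy)

/-- the embedding of the free group in the free product -/
noncomputable def emb : FreeGroup Z →* CoprodI (fun _ : Z => Multiplicative ℤ) :=
  FreeGroup.lift fun z => CoprodI.of (i := z) (Multiplicative.ofAdd 1)

theorem emb_inj : Function.Injective (emb : FreeGroup Z →* _) := by
  let g : CoprodI (fun _ : Z => Multiplicative ℤ) →* FreeGroup Z :=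
    CoprodI.lift fun z => zpowersHom (FreeGroup Z) (FreeGroup.of z)
  have h : g.comp emb = MonoidHom.id _ := by
    ext z
    simp [g, emb]
  intro a b hab
  have h1 := congrArg g hab
  have h2 : ∀ x, g (emb x) = x := fun x => DFunLike.congr_fun h x
  rwa [h2, h2] at h1

theorem entry (k : ℕ) (m : ℕ → Option Z) (hm : ∀ i z, m i = some z → m (i + 1) ≠ some z)
    (L : List (Σ _ : Z, Multiplicative ℤ)) (hL : L.length = k)
    (hLm : ∀ i, m i = (L[i]?).map Sigma.fst) (r : ℕ) : ∀ a, a + r = k →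
    (∀ i j : Fin (k + 1), (i : ℕ) + r < j →
      (((L.drop a).map fun l => phi k m hm l.1 l.2).prod) i j = 0) ∧
    ∀ i j : Fin (k + 1), (i : ℕ) = a → (j : ℕ) = k →
    (((L.drop a).map fun l => phi k m hm l.1 l.2).prod) i j =
      (((L.drop a).map fun l => Multiplicative.toAdd l.2).prod) := by
  induction r with
  | zero =>
    intro a ha
    rw [show L.drop a = [] from List.drop_eq_nil_of_le (by omega)]
    refine ⟨fun i j h => ?_, fun i j h1 h2 => ?_⟩
    · rw [List.map_nil, List.prod_nil, Matrix.one_apply_ne (by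
        intro h1
        rw [h1] at h
        omega)]
    · have : i = j := Fin.ext (by omega)
      subst this
      simp
  | succ r ih =>
    intro a ha
    obtain ⟨h1, h2⟩ := ih (a + 1) (by omega)
    have hlt : a < L.length := by omega
    rw [List.drop_eq_getElem_cons hlt, List.map_cons, List.prod_cons, List.map_cons,
      List.prod_cons]
    set Q := ((L.drop (a + 1)).map fun l => phi k m hm l.1 l.2).prod with hQ
    set l := L[a] with hl
    have hmul : ∀ i j : Fin (k + 1), (phi k m hm l.1 l.2 * Q) i j =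
        Q i j + Multiplicative.toAdd l.2 * ((X k m l.1 * Q) i j) := by
      intro i j
      show ((1 + (Multiplicative.toAdd l.2) • X k m l.1) * Q) i j = _
      rw [add_mul, one_mul, smul_mul_assoc, Matrix.add_apply, Matrix.smul_apply, smul_eq_mul]
    have hX : ∀ (i j : Fin (k + 1)), (∀ p : Fin (k + 1), (p : ℕ) = i + 1 → m i = some l.1 →
        Q p j = 0) → (X k m l.1 * Q) i j = 0 := by
      intro i j h
      rw [Matrix.mul_apply]
      refine Finset.sum_eq_zero fun p _ => ?_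
      rw [X, Matrix.of_apply]
      by_cases h3 : (p : ℕ) = i + 1 ∧ m i = some l.1
      · rw [h p h3.1 h3.2, mul_zero]
      · rw [if_neg h3, zero_mul]
    refine ⟨fun i j hij => ?_, fun i j hi hj => ?_⟩
    · rw [hmul, h1 i j (by omega), hX i j (fun p hp _ => h1 p j (by omega))]
      simp
    · rw [hmul, h1 _ _ (by omega), zero_add]
      congr 1
      rw [Matrix.mul_apply, Finset.sum_eq_single (⟨a + 1, by omega⟩ : Fin (k + 1))]
      · rw [h2 _ _ rfl hj, X, Matrix.of_apply, if_pos, one_mul]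
        refine ⟨by simp [hi], ?_⟩
        rw [hLm, hi, List.getElem?_eq_getElem hlt]
        rfl
      · intro p _ hp
        rw [X, Matrix.of_apply, if_neg, zero_mul]
        rintro ⟨h3, _⟩
        apply hp
        ext
        simp only
        omega
      · intro h
        exact absurd (Finset.mem_univ _) h

theorem exists_rep_ne (s : FreeGroup Z) (hs : s ≠ 1) :
    ∃ (k : ℕ) (ρ : FreeGroup Z →* Matrix (Fin (k + 1)) (Fin (k + 1)) ℤ),
      (∀ g, D 0 1 (ρ g - 1)) ∧ ρ s ≠ 1 := by
  classical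
  have h0 : emb s ≠ 1 := fun h => hs (emb_inj (by rw [h, map_one]))
  set w := CoprodI.Word.equiv (emb s) with hw
  have hprod : w.prod = emb s := by
    rw [hw]
    exact CoprodI.Word.equiv.symm_apply_apply (emb s)
  set L := w.toList with hL
  have hne : L ≠ [] := by
    intro h
    apply h0
    rw [← hprod, CoprodI.Word.prod, ← hL, h]
    simp
  let m : ℕ → Option Z := fun i => (L[i]?).map Sigma.fst
  have hm : ∀ i z, m i = some z → m (i + 1) ≠ some z := by
    intro i z h1 h2
    have hc := w.chain_ne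
    rw [← hL, List.isChain_iff_getElem] at hc
    simp only [m, Option.map_eq_some_iff] at h1 h2
    obtain ⟨x, hx, rfl⟩ := h1
    obtain ⟨y, hy, hy2⟩ := h2
    obtain ⟨hi, hx'⟩ := List.getElem?_eq_some_iff.1 hx
    obtain ⟨hi', hy'⟩ := List.getElem?_eq_some_iff.1 hy
    have := hc i (by omega)
    rw [hx', hy'] at this
    exact this hy2.symm
  refine ⟨L.length, (rho' L.length m hm).comp emb, fun g => rho'_D _ m hm _, ?_⟩
  have h1 : (rho' L.length m hm) (emb s) = (L.map fun l => phi L.length m hm l.1 l.2).prod := by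
    rw [← hprod, CoprodI.Word.prod, map_list_prod, List.map_map, ← hL]
    congr 1
  have h2 := (entry L.length m hm L rfl (fun i => rfl) L.length 0 (by omega)).2
    ⟨0, by omega⟩ ⟨L.length, by omega⟩ rfl rfl
  rw [List.drop_zero, ← h1] at h2
  intro h3
  have h4 : (rho' L.length m hm) (emb s) = 1 := h3
  rw [h4, Matrix.one_apply_ne (by
    intro h5
    have := congrArg Fin.val h5
    simp only at this
    exact hne (List.eq_nil_of_length_eq_zero this.symm))] at h2
  have h5 : (0 : ℤ) ∈ L.map fun l => Multiplicative.toAdd l.2 := List.prod_eq_zero_iff.1 h2.symm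
  obtain ⟨l, hl, hl0⟩ := List.mem_map.1 h5
  exact w.ne_one l hl (Multiplicative.toAdd.injective hl0)

end Rep

section Main

variable {Z : Type}

/-- the congruence subgroups -/
def cong {k : ℕ} (ρ : FreeGroup Z →* Matrix (Fin (k + 1)) (Fin (k + 1)) ℤ)
    (hρ : ∀ g, D 0 1 (ρ g - 1)) (n : ℤ) (e : ℕ) : Subgroup (FreeGroup Z) where
  carrier := {g | D n e (ρ g - 1)}
  mul_mem' := by
    intro a b ha hb
    simp only [Set.mem_ofPred_eq] at ha hb ⊢
    have h0 : D 0 0 (ρ b) := by
      have := ((hρ b).mono (by omega : 0 ≤ 1)).add (D_one 0)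
      rwa [sub_add_cancel] at this
    have h1 : ρ (a * b) - 1 = (ρ a - 1) * ρ b + (ρ b - 1) := by
      rw [map_mul]
      noncomm_ring
    rw [h1]
    exact (ha.mul h0).add hb
  one_mem' := by
    simp only [Set.mem_ofPred_eq, map_one, sub_self]
    exact D_zero n e
  inv_mem' := by
    intro a ha
    simp only [Set.mem_ofPred_eq] at ha ⊢
    have h0 : D 0 0 (ρ a⁻¹) := by
      have := ((hρ a⁻¹).mono (by omega : 0 ≤ 1)).add (D_one 0)
      rwa [sub_add_cancel] at this
    have h1 : ρ a⁻¹ - 1 = -(ρ a⁻¹ * (ρ a - 1)) := by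
      have h2 : ρ a⁻¹ * ρ a = 1 := by rw [← map_mul, inv_mul_cancel, map_one]
      rw [mul_sub, h2]
      noncomm_ring
    rw [h1]
    have := h0.mul' ha
    rw [zero_add] at this
    exact this.neg

theorem cong_normal {k : ℕ} (ρ : FreeGroup Z →* Matrix (Fin (k + 1)) (Fin (k + 1)) ℤ)
    (hρ : ∀ g, D 0 1 (ρ g - 1)) (n : ℤ) (e : ℕ) : (cong ρ hρ n e).Normal := by
  refine ⟨fun a ha b => ?_⟩
  have ha' : D n e (ρ a - 1) := ha
  show D n e (ρ (b * a * b⁻¹) - 1)
  have h0 : ∀ x, D 0 0 (ρ x) := by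
    intro x
    have := ((hρ x).mono (by omega : 0 ≤ 1)).add (D_one 0)
    rwa [sub_add_cancel] at this
  have h1 : ρ (b * a * b⁻¹) - 1 = ρ b * (ρ a - 1) * ρ b⁻¹ := by
    have h2 : ρ b * ρ b⁻¹ = 1 := by rw [← map_mul, mul_inv_cancel, map_one]
    rw [map_mul, map_mul, mul_sub, sub_mul, mul_one, h2]
  rw [h1]
  have := ((h0 b).mul' ha').mul (h0 b⁻¹)
  rwa [zero_add, add_zero] at this

theorem cong_finite {k : ℕ} (ρ : FreeGroup Z →* Matrix (Fin (k + 1)) (Fin (k + 1)) ℤ)
    (hρ : ∀ g, D 0 1 (ρ g - 1)) (n : ℕ) (hn : 0 < n) (e : ℕ) :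
    (cong ρ hρ n e).FiniteIndex := by
  have : NeZero n := ⟨hn.ne'⟩
  let f : FreeGroup Z →* Matrix (Fin (k + 1)) (Fin (k + 1)) (ZMod n) :=
    ((Int.castRingHom (ZMod n)).mapMatrix : _ →+* _).toMonoidHom.comp ρ
  have h1 : f.toHomUnits.ker ≤ cong ρ hρ n e := by
    intro g hg
    rw [MonoidHom.mem_ker] at hg
    have h2 : f g = 1 := by
      have := congrArg Units.val hg
      simpa using this
    intro i j _
    have h3 : (Int.castRingHom (ZMod n)) (ρ g i j) = (1 : Matrix _ _ (ZMod n)) i j := by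
      rw [← h2]
      rfl
    rw [Matrix.sub_apply, ← ZMod.intCast_zmod_eq_zero_iff_dvd]
    have h4 : (Int.castRingHom (ZMod n)) ((1 : Matrix (Fin (k + 1)) (Fin (k + 1)) ℤ) i j) =
        (1 : Matrix _ _ (ZMod n)) i j := by
      by_cases h : i = j
      · rw [h, Matrix.one_apply_eq, Matrix.one_apply_eq, map_one]
      · rw [Matrix.one_apply_ne h, Matrix.one_apply_ne h, map_zero]
    push_cast
    rw [sub_eq_zero]
    exact h3.trans h4.symm
  have h5 : f.toHomUnits.ker.FiniteIndex := Subgroup.finiteIndex_ker _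
  exact Subgroup.finiteIndex_of_le h1

/-- Modulo a suitable normal subgroup `s` is central and potent. -/
theorem exists_central (s : FreeGroup Z) (hs : s ≠ 1) :
    ∃ (K : Subgroup (FreeGroup Z)) (_ : K.Normal), (∀ g, s * g * s⁻¹ * g⁻¹ ∈ K) ∧
      Potent ((s : FreeGroup Z ⧸ K)) := by
  classical
  obtain ⟨k, ρ, hρ, hne⟩ := exists_rep_ne s hs
  set S := ρ s - 1 with hS
  have hex : ∃ d, ∃ i j : Fin (k + 1), (j : ℕ) = i + d ∧ S i j ≠ 0 := by
    by_contra hcon
    push Not at hcon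
    apply hne
    rw [← sub_eq_zero, ← hS]
    ext i j
    rcases Nat.lt_or_ge (j : ℕ) i with h | h
    · exact zero_dvd_iff.1 (hρ s i j (by omega))
    · exact hcon (j - i) i j (by omega)
  obtain ⟨i₀, j₀, hij, hS0⟩ := Nat.find_spec hex
  set d := Nat.find hex with hd
  have hSd : D 0 d S := by
    intro i j h
    rw [zero_dvd_iff]
    by_contra hne0
    have h1 : ¬ ((j : ℕ) < i + 1) := fun h2 => hne0 (zero_dvd_iff.1 (hρ s i j h2))
    exact Nat.find_min hex (by omega : (j : ℕ) - i < d) ⟨i, j, by omega, hne0⟩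
  have hd1 : 1 ≤ d := by
    by_contra h
    exact hS0 (zero_dvd_iff.1 (hρ s i₀ j₀ (by omega)))
  have h0 : ∀ x, D 0 0 (ρ x) := by
    intro x
    have := ((hρ x).mono (by omega : 0 ≤ 1)).add (D_one 0)
    rwa [sub_add_cancel] at this
  let K := cong ρ hρ 0 (d + 1)
  have hK : K.Normal := cong_normal ρ hρ 0 (d + 1)
  refine ⟨K, hK, ?_, ?_⟩
  · intro g
    show D 0 (d + 1) (ρ (s * g * s⁻¹ * g⁻¹) - 1)
    have h1 : ρ (s * g * s⁻¹ * g⁻¹) - 1 =
        (S * (ρ g - 1) - (ρ g - 1) * S) * ρ (s⁻¹ * g⁻¹) := by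
      have h2 : S * (ρ g - 1) - (ρ g - 1) * S = ρ (s * g) - ρ (g * s) := by
        rw [hS, map_mul, map_mul]
        noncomm_ring
      rw [h2, sub_mul, ← map_mul, ← map_mul, show g * s * (s⁻¹ * g⁻¹) = 1 by group, map_one,
        show s * g * (s⁻¹ * g⁻¹) = s * g * s⁻¹ * g⁻¹ by group]
    rw [h1]
    have h3 := ((hSd.mul (hρ g)).sub (((hρ g).mul hSd).mono (by omega : d + 1 ≤ 1 + d))).mul
      (h0 (s⁻¹ * g⁻¹))
    rwa [add_zero] at h3
  -- powers
  have hpow : ∀ l : ℕ, D 0 (d + 1) (ρ (s ^ l) - 1 - (l : ℤ) • S) := by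
    intro l
    induction l with
    | zero =>
      rw [pow_zero, map_one, sub_self]
      simp only [Nat.cast_zero, zero_smul, sub_zero]
      exact D_zero 0 _
    | succ l ih =>
      have h1 : ρ (s ^ (l + 1)) - 1 - ((l + 1 : ℕ) : ℤ) • S =
          (ρ (s ^ l) - 1) * S + (ρ (s ^ l) - 1 - (l : ℤ) • S) := by
        have h2 : ρ s = S + 1 := by rw [hS, sub_add_cancel]
        rw [pow_succ, map_mul, h2]
        push_cast
        rw [add_smul, one_smul]
        noncomm_ring
      rw [h1]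
      refine D.add ?_ ih
      have h3 := (hρ (s ^ l)).mul hSd
      exact h3.mono (by omega)
  have hzpow : ∀ l : ℤ, D 0 (d + 1) (ρ (s ^ l) - 1 - l • S) := by
    intro l
    obtain ⟨l, rfl | rfl⟩ := l.eq_nat_or_neg
    · rw [zpow_natCast]
      exact hpow l
    · rw [zpow_neg, zpow_natCast]
      have h1 : ρ (s ^ l)⁻¹ - 1 - (-(l : ℤ)) • S =
          -((ρ (s ^ l)⁻¹ - 1) * (ρ (s ^ l) - 1)) - (ρ (s ^ l) - 1 - (l : ℤ) • S) := by
        have h2 : ρ (s ^ l)⁻¹ * ρ (s ^ l) = 1 := by rw [← map_mul, inv_mul_cancel, map_one]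
        rw [sub_mul, mul_sub, h2, neg_smul]
        noncomm_ring
      rw [h1]
      refine D.sub (D.neg ?_) (hpow l)
      -- `ρ (s ^ l) - 1` lies deep
      have h3 : D 0 d (ρ (s ^ l) - 1) := by
        have := ((hpow l).mono (by omega : d ≤ d + 1)).add (hSd.smul (l : ℤ))
        rwa [sub_add_cancel] at this
      exact ((hρ _).mul h3).mono (by omega)
  intro b
  induction b using QuotientGroup.induction_on with
  | H b =>
  refine ⟨ρ b i₀ j₀ / S i₀ j₀, fun n hn => ?_⟩
  let n' : ℕ := n * (S i₀ j₀).natAbs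
  have hn' : 0 < n' := Nat.mul_pos hn (Int.natAbs_pos.2 hS0)
  let N := cong ρ hρ n' (d + 1)
  have hNn : N.Normal := cong_normal ρ hρ n' (d + 1)
  have hNf : N.FiniteIndex := cong_finite ρ hρ n' hn' (d + 1)
  have hKN : K ≤ N := fun g hg => D.of_zero _ hg
  refine ⟨N.map (QuotientGroup.mk' K), hNn.map _ (QuotientGroup.mk'_surjective K), ?_, ?_⟩
  · exact ⟨ne_zero_of_dvd_ne_zero hNf.index_ne_zero
      (Subgroup.index_map_dvd N (QuotientGroup.mk'_surjective K))⟩
  · intro i hi
    have h1 : b * s ^ (-i) ∈ N := by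
      obtain ⟨y, hy, hy2⟩ := Subgroup.mem_map.1 hi
      have h2 : (y : FreeGroup Z ⧸ K) = ((b * s ^ (-i) : FreeGroup Z) : FreeGroup Z ⧸ K) := by
        rw [QuotientGroup.mk'_apply] at hy2
        rw [hy2]
        simp
      have h3 := QuotientGroup.eq.1 h2
      have := N.mul_mem hy (hKN h3)
      rwa [mul_inv_cancel_left] at this
    have h2 : D n' (d + 1) (ρ b - ρ (s ^ i)) := by
      have h3 : ρ b - ρ (s ^ i) = (ρ (b * s ^ (-i)) - 1) * ρ (s ^ i) := by
        rw [sub_mul, ← map_mul, one_mul]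
        congr 2
        rw [mul_assoc, ← zpow_add]
        simp
      rw [h3]
      have := D.mul (h1 : D n' (d + 1) _) (h0 (s ^ i))
      rwa [add_zero] at this
    have h3 := h2.sub ((hzpow i).of_zero (n' : ℤ) |>.neg)
    have h4 := h3 i₀ j₀ (by omega)
    have h5 : (ρ b - ρ (s ^ i) - -(ρ (s ^ i) - 1 - i • S)) i₀ j₀ = ρ b i₀ j₀ - i * S i₀ j₀ := by
      have h6 : (1 : Matrix (Fin (k + 1)) (Fin (k + 1)) ℤ) i₀ j₀ = 0 := Matrix.one_apply_ne (by
        intro h7
        rw [h7] at hij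
        omega)
      simp only [Matrix.sub_apply, Matrix.neg_apply, Matrix.smul_apply, smul_eq_mul, h6]
      ring
    rw [h5] at h4
    have h6 : (S i₀ j₀) ∣ ρ b i₀ j₀ := by
      have h7 : (S i₀ j₀) ∣ (n' : ℤ) := by
        show _ ∣ ((n * (S i₀ j₀).natAbs : ℕ) : ℤ)
        push_cast
        exact Dvd.dvd.mul_left (by rw [dvd_abs]) _
      have h8 := h7.trans h4
      exact (Int.dvd_iff_dvd_of_dvd_sub h8).2 (Dvd.intro_left i rfl)
    obtain ⟨c, hc⟩ := h6
    rw [hc, Int.mul_ediv_cancel_left c hS0]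
    rw [hc] at h4
    have h7 : S i₀ j₀ * c - i * S i₀ j₀ = (c - i) * S i₀ j₀ := by ring
    rw [h7] at h4
    have h8 : (n : ℤ) * |S i₀ j₀| ∣ (c - i) * S i₀ j₀ := by
      have : ((n' : ℕ) : ℤ) = (n : ℤ) * |S i₀ j₀| := by
        show ((n * (S i₀ j₀).natAbs : ℕ) : ℤ) = _
        push_cast
        rfl
      rwa [this] at h4
    have h9 : (n : ℤ) * S i₀ j₀ ∣ (c - i) * S i₀ j₀ := by
      rcases abs_choice (S i₀ j₀) with h | h
      · rwa [h] at h8
      · rw [h, mul_neg] at h8
        exact (neg_dvd).1 h8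
    have h10 := Int.dvd_of_mul_dvd_mul_right hS0 h9
    have h11 : (n : ℤ) ∣ -(c - i) := (dvd_neg).2 h10
    rwa [neg_sub] at h11

/-- Nontrivial elements of free groups are potent. -/
theorem free_potent (s : FreeGroup Z) (hs : s ≠ 1) : Potent s := by
  obtain ⟨K, hK, _, hp⟩ := exists_central s hs
  exact Potent.comap (QuotientGroup.mk' K) hp

end Main

end Pool.Agent.MP3f0e40
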