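import Pool.Agent.Lib.MP_3f0e40_al.Hnn
import Pool.Agent.Lib.MP_3f0e40_al.Magnus

set_option autoImplicit false

/-!
# HNN extensions with cyclic associated subgroups; disjoint relators
-/

namespace Pool.Agent.MP3f0e40

theorem rf_iff (G : Type) [Group G] : Group.ResiduallyFinite G ↔
    ∀ g : G, g ≠ 1 → ∃ N : Subgroup G, N.Normal ∧ N.FiniteIndex ∧ g ∉ N := by
  rw [Group.residuallyFinite_iff_exists_finiteIndexNormalSubgroup]
  constructor
  · intro h g hg
    obtain ⟨N, hN⟩ := h g hg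
    exact ⟨N.toSubgroup, inferInstance, inferInstance, hN⟩
  · intro h g hg
    obtain ⟨N, h1, h2, h3⟩ := h g hg
    exact ⟨FiniteIndexNormalSubgroup.ofSubgroup N, h3⟩

theorem rf_of_injective {G H : Type} [Group G] [Group H] (f : G →* H)
    (hf : Function.Injective f) (hH : Group.ResiduallyFinite H) : Group.ResiduallyFinite G := by
  rw [rf_iff] at hH ⊢
  intro g hg
  obtain ⟨N, h1, h2, h3⟩ := hH (f g) (fun h => hg (hf (by rw [h, map_one])))
  exact ⟨N.comap f, inferInstance, finIdx_comap f N, h3⟩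

theorem Potent.rf_ne {G : Type} [Group G] {s : G} (h : Potent s) :
    ∃ N : Subgroup G, N.Normal ∧ N.FiniteIndex ∧ s ∉ N := by
  obtain ⟨j, hj⟩ := h 1
  obtain ⟨N, h1, h2, h3⟩ := hj 2 (by norm_num)
  refine ⟨N, h1, h2, fun hs => ?_⟩
  have h4 := h3 0 (by simp)
  have h5 := h3 (-1) (by simpa using hs)
  omega

theorem free_rf (Z : Type) : Group.ResiduallyFinite (FreeGroup Z) := by
  rw [rf_iff]
  intro g hg
  exact (free_potent g hg).rf_ne

theorem exists_common {B : Type} [Group B] {P : B → Subgroup B → Prop}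
    (hanti : ∀ b N N', N' ≤ N → P b N → P b N')
    (h : ∀ b, ∃ N : Subgroup B, N.Normal ∧ N.FiniteIndex ∧ P b N) (T : Finset B) :
    ∃ N : Subgroup B, N.Normal ∧ N.FiniteIndex ∧ ∀ b ∈ T, P b N := by
  classical
  induction T using Finset.induction with
  | empty => exact ⟨⊤, inferInstance, inferInstance, by simp⟩
  | insert a T _ ih =>
    obtain ⟨N, h1, h2, h3⟩ := ih
    obtain ⟨N', h1', h2', h3'⟩ := h a
    refine ⟨N ⊓ N', inferInstance, inferInstance, fun b hb => ?_⟩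
    rcases Finset.mem_insert.1 hb with rfl | hb
    · exact hanti _ _ _ inf_le_right h3'
    · exact hanti _ _ _ inf_le_left (h3 b hb)

theorem potent_sep {G : Type} [Group G] (hG : Group.ResiduallyFinite G) {s : G} (hs : Potent s)
    (b : G) (hb : ∀ i : ℤ, b ≠ s ^ i) :
    ∃ N : Subgroup G, N.Normal ∧ N.FiniteIndex ∧ ∀ i : ℤ, b * s ^ (-i) ∉ N := by
  rw [rf_iff] at hG
  obtain ⟨j, hj⟩ := hs b
  obtain ⟨M, hM1, hM2, hM3⟩ := hG (b * s ^ (-j)) (fun h => hb j (by
    rw [zpow_neg, mul_inv_eq_one] at h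
    exact h))
  obtain ⟨N, hN1, hN2, hN3⟩ := hj M.index (Nat.pos_of_ne_zero hM2.index_ne_zero)
  refine ⟨M ⊓ N, inferInstance, inferInstance, fun i hi => hM3 ?_⟩
  obtain ⟨c, hc⟩ := hN3 i hi.2
  have h1 : s ^ (i - j) ∈ M := by
    rw [hc, zpow_mul, zpow_natCast]
    exact M.zpow_mem (M.pow_index_mem s) c
  have h2 := M.mul_mem hi.1 h1
  rw [mul_assoc, ← zpow_add] at h2
  have h3 : -i + (i - j) = -j := by ring
  rwa [h3] at h2

/-- `I` is obtained from `G` by adding a letter commuting with `s`. -/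
theorem rf_central {G I : Type} [Group G] [Group I] (hG : Group.ResiduallyFinite G) {s : G}
    (hs : Potent s) (ι : G →* I) (t : I) (hrel : t * ι s * t⁻¹ = ι s)
    (hgen : Subgroup.closure (Set.range ι ∪ {t}) = ⊤)
    (huniv : ∀ (Ω : Type) [Finite Ω] (ψ : G →* Equiv.Perm Ω) (τ : Equiv.Perm Ω),
      τ * ψ s = ψ s * τ → ∃ Φ : I →* Equiv.Perm Ω, (∀ b, Φ (ι b) = ψ b) ∧ Φ t = τ) :
    Group.ResiduallyFinite I := by
  have hrel' : ∀ c : ℤ, t * ι (s ^ c) * t⁻¹ = ι (s ^ c) := by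
    intro c
    rw [map_zpow, ← conj_zpow, hrel]
  refine criterion ι t (zpowersHom G s) (zpowersHom G s) (fun c => by
      rw [zpowersHom_apply]
      exact hrel' _) hgen
    (fun Ω _ ψ τ h => huniv Ω ψ τ (by
      have := h (Multiplicative.ofAdd 1)
      rwa [zpowersHom_apply, toAdd_ofAdd, zpow_one] at this)) (fun T => ?_)
  obtain ⟨N, h1, h2, h3⟩ := exists_common
    (P := fun b N => (b ≠ 1 → b ∉ N) ∧ ((∀ i : ℤ, b ≠ s ^ i) → ∀ i : ℤ, b * s ^ (-i) ∉ N))
    (fun b N N' hN hP => ⟨fun hb hb' => hP.1 hb (hN hb'), fun hb i hi => hP.2 hb i (hN hi)⟩)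
    (fun b => by
      have hA : ∃ N : Subgroup G, N.Normal ∧ N.FiniteIndex ∧ (b ≠ 1 → b ∉ N) := by
        by_cases hb : b = 1
        · exact ⟨⊤, inferInstance, inferInstance, fun h => absurd hb h⟩
        · obtain ⟨N, h1, h2, h3⟩ := (rf_iff G).1 hG b hb
          exact ⟨N, h1, h2, fun _ => h3⟩
      have hB : ∃ N : Subgroup G, N.Normal ∧ N.FiniteIndex ∧
          ((∀ i : ℤ, b ≠ s ^ i) → ∀ i : ℤ, b * s ^ (-i) ∉ N) := by
        by_cases hb : ∀ i : ℤ, b ≠ s ^ i
        · obtain ⟨N, h1, h2, h3⟩ := potent_sep hG hs b hb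
          exact ⟨N, h1, h2, fun _ => h3⟩
        · exact ⟨⊤, inferInstance, inferInstance, fun h => absurd h hb⟩
      obtain ⟨N, h1, h2, h3⟩ := hA
      obtain ⟨N', h1', h2', h3'⟩ := hB
      exact ⟨N ⊓ N', inferInstance, inferInstance, fun hb hb' => h3 hb hb'.1,
        fun hb i hi => h3' hb i hi.2⟩) T
  have key : ∀ b ∈ T, (∀ c : Multiplicative ℤ, b ≠ zpowersHom G s c) →
      ∀ c : Multiplicative ℤ, b * (zpowersHom G s c)⁻¹ ∉ N := by
    intro b hb hne c hc
    refine (h3 b hb).2 (fun i => ?_) (Multiplicative.toAdd c) ?_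
    · have := hne (Multiplicative.ofAdd i)
      rwa [zpowersHom_apply, toAdd_ofAdd] at this
    · rw [zpowersHom_apply] at hc
      rwa [zpow_neg]
  exact ⟨N, h1, h2, fun c => Iff.rfl, fun b hb => ⟨(h3 b hb).1, key b hb, key b hb⟩⟩

/-- HNN extension conjugating the cyclic group generated by `c` to the one generated by `s`. -/
theorem rf_cyclic {E F' I : Type} [Group E] [Group F'] [Group I]
    (hE : Group.ResiduallyFinite E) (s c : E)
    (χ : E →* Multiplicative ℤ) (hχc : χ c = Multiplicative.ofAdd 1) (hχs : χ s = 1)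
    (ρ : E →* F') (hρc : ρ c = 1) (hρs : Potent (ρ s))
    (ι : E →* I) (t : I) (hrel : t * ι c * t⁻¹ = ι s)
    (hgen : Subgroup.closure (Set.range ι ∪ {t}) = ⊤)
    (huniv : ∀ (Ω : Type) [Finite Ω] (ψ : E →* Equiv.Perm Ω) (τ : Equiv.Perm Ω),
      τ * ψ c = ψ s * τ → ∃ Φ : I →* Equiv.Perm Ω, (∀ b, Φ (ι b) = ψ b) ∧ Φ t = τ) :
    Group.ResiduallyFinite I := by
  classical
  refine criterion ι t (zpowersHom E s) (zpowersHom E c) (fun d => by
      rw [zpowersHom_apply, zpowersHom_apply, map_zpow, map_zpow, ← conj_zpow, hrel]) hgen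
    (fun Ω _ ψ τ h => huniv Ω ψ τ (by
      have := h (Multiplicative.ofAdd 1)
      rwa [zpowersHom_apply, zpowersHom_apply, toAdd_ofAdd, zpow_one, zpow_one] at this))
    (fun T => ?_)
  -- the exponents
  choose J hJ using hρs
  obtain ⟨M, hM1, hM2, hM3⟩ := exists_common
    (P := fun (b : E) (N : Subgroup E) => b ≠ 1 → b ∉ N)
    (fun b N N' hN hP hb hb' => hP hb (hN hb'))
    (fun b => by
      by_cases hb : b = 1
      · exact ⟨⊤, inferInstance, inferInstance, fun h => absurd hb h⟩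
      · obtain ⟨N, h1, h2, h3⟩ := (rf_iff E).1 hE b hb
        exact ⟨N, h1, h2, fun _ => h3⟩)
    (T ∪ T.image (fun b => b * c ^ (-(Multiplicative.toAdd (χ b)))) ∪
      T.image (fun b => b * s ^ (-(J (ρ b)))))
  set o := M.index with ho
  have ho0 : 0 < o := Nat.pos_of_ne_zero hM2.index_ne_zero
  obtain ⟨N', hN'1, hN'2, hN'3⟩ := exists_common
    (P := fun (x : F') (N : Subgroup F') => ∀ i : ℤ, x * (ρ s) ^ (-i) ∈ N → (o : ℤ) ∣ i - J x)
    (fun b N N' hN hP i hi => hP i (hN hi))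
    (fun b => hJ b o ho0) (insert 1 (T.image ρ))
  have hJ1 : J 1 = 0 := by
    have h : ∀ n : ℕ, 0 < n → (n : ℤ) ∣ J 1 := by
      intro n hn
      obtain ⟨N, _, _, h3⟩ := hJ 1 n hn
      have := h3 0 (by simp)
      rwa [zero_sub, dvd_neg] at this
    have h2 := h ((J 1).natAbs + 1) (by omega)
    by_contra h3
    have h4 := Int.le_of_dvd (by positivity) ((dvd_abs _ _).2 h2)
    push_cast at h4
    omega
  set k := orderOf ((ρ s : F') : F' ⧸ N') with hk
  have hk0 : 0 < k := orderOf_pos _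
  have hsk : ∀ i : ℤ, (ρ s) ^ i ∈ N' ↔ (k : ℤ) ∣ i := by
    intro i
    rw [hk, orderOf_dvd_iff_zpow_eq_one, ← QuotientGroup.mk_zpow, QuotientGroup.eq_one_iff]
  have hok : (o : ℤ) ∣ k := by
    have h1 := hN'3 1 (Finset.mem_insert_self _ _) (-(k : ℤ)) (by
      rw [one_mul, neg_neg, hsk])
    rw [hJ1, sub_zero, dvd_neg] at h1
    exact h1
  have : NeZero k := ⟨hk0.ne'⟩
  let χk : E →* Multiplicative (ZMod k) := (Int.castAddHom (ZMod k)).toMultiplicative.comp χ
  have hχk : ∀ b : E, b ∈ χk.ker ↔ (k : ℤ) ∣ Multiplicative.toAdd (χ b) := by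
    intro b
    rw [MonoidHom.mem_ker]
    show Multiplicative.ofAdd ((Multiplicative.toAdd (χ b) : ℤ) : ZMod k) = 1 ↔ _
    rw [← ZMod.intCast_zmod_eq_zero_iff_dvd]
    exact Iff.rfl
  have hmemM : ∀ (x : E) (i : ℤ), (o : ℤ) ∣ i → x ^ i ∈ M := by
    rintro x i ⟨d, rfl⟩
    rw [zpow_mul, zpow_natCast]
    exact M.zpow_mem (M.pow_index_mem x) d
  have hfin : χk.ker.FiniteIndex := Subgroup.finiteIndex_ker _
  have hfin' : (N'.comap ρ).FiniteIndex := finIdx_comap ρ N'
  refine ⟨M ⊓ (N'.comap ρ ⊓ χk.ker), inferInstance, inferInstance, ?_, ?_⟩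
  · intro d
    rw [zpowersHom_apply, zpowersHom_apply]
    set i := Multiplicative.toAdd d
    have hc : c ^ i ∈ M ⊓ (N'.comap ρ ⊓ χk.ker) ↔ (k : ℤ) ∣ i := by
      rw [Subgroup.mem_inf, Subgroup.mem_inf, hχk, map_zpow, hχc, Subgroup.mem_comap, map_zpow,
        hρc, one_zpow]
      rw [show Multiplicative.toAdd ((Multiplicative.ofAdd (1 : ℤ)) ^ i) = i by simp]
      exact ⟨fun h => h.2.2, fun h => ⟨hmemM c i (hok.trans h), N'.one_mem, h⟩⟩
    have hs : s ^ i ∈ M ⊓ (N'.comap ρ ⊓ χk.ker) ↔ (k : ℤ) ∣ i := by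
      rw [Subgroup.mem_inf, Subgroup.mem_inf, hχk, map_zpow, hχs, Subgroup.mem_comap, map_zpow,
        hsk, one_zpow]
      refine ⟨fun h => h.2.1, fun h => ⟨hmemM s i (hok.trans h), h, ?_⟩⟩
      simp
    rw [hc, hs]
  · intro b hb
    refine ⟨fun h1 h2 => hM3 b (by simp [hb]) h1 h2.1, ?_, ?_⟩
    · intro hne d hd
      rw [zpowersHom_apply] at hd
      set i := Multiplicative.toAdd d with hi
      have h1 : (o : ℤ) ∣ i - J (ρ b) := by
        refine hN'3 (ρ b) (by simp only [Finset.mem_insert, Finset.mem_image]; exact Or.inr ⟨b, hb, rfl⟩) i ?_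
        have h2 : ρ (b * (s ^ i)⁻¹) ∈ N' := hd.2.1
        rw [map_mul, map_inv, map_zpow] at h2
        rwa [zpow_neg]
      refine hM3 (b * s ^ (-(J (ρ b)))) ?_ ?_ ?_
      · simp only [Finset.mem_union, Finset.mem_image]
        exact Or.inr ⟨b, hb, rfl⟩
      · intro h
        apply hne (Multiplicative.ofAdd (J (ρ b)))
        rw [zpowersHom_apply, toAdd_ofAdd]
        rwa [zpow_neg, mul_inv_eq_one] at h
      · have h2 := M.mul_mem hd.1 (hmemM s _ h1)
        rw [← zpow_neg, mul_assoc, ← zpow_add] at h2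
        have h3 : -i + (i - J (ρ b)) = -J (ρ b) := by ring
        rwa [h3] at h2
    · intro hne d hd
      rw [zpowersHom_apply] at hd
      set i := Multiplicative.toAdd d with hi
      have h1 : (o : ℤ) ∣ i - Multiplicative.toAdd (χ b) := by
        have h2 := (hχk _).1 hd.2.2
        rw [map_mul, map_inv, map_zpow, hχc, toAdd_mul, toAdd_inv] at h2
        rw [show Multiplicative.toAdd ((Multiplicative.ofAdd (1 : ℤ)) ^ i) = i by simp] at h2
        have h3 := hok.trans h2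
        have h4 : i - Multiplicative.toAdd (χ b) = -(Multiplicative.toAdd (χ b) + -i) := by ring
        rw [h4, dvd_neg]
        exact h3
      refine hM3 (b * c ^ (-(Multiplicative.toAdd (χ b)))) ?_ ?_ ?_
      · simp only [Finset.mem_union, Finset.mem_image]
        exact Or.inl (Or.inr ⟨b, hb, rfl⟩)
      · intro h
        apply hne (χ b)
        rw [zpowersHom_apply]
        rwa [zpow_neg, mul_inv_eq_one] at h
      · have h2 := M.mul_mem hd.1 (hmemM c _ h1)
        rw [← zpow_neg, mul_assoc, ← zpow_add] at h2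
        have h3 : -i + (i - Multiplicative.toAdd (χ b)) = -Multiplicative.toAdd (χ b) := by ring
        rwa [h3] at h2

end Pool.Agent.MP3f0e40
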