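import Pool.Agent.Lib.MP_3f0e40_al.Sep

set_option autoImplicit false

/-!
# One-relator groups whose relator is a commutator: disjoint relators, shifted relators
-/

namespace Pool.Agent.MP3f0e40

open scoped commutatorElement

/-- HNN extension along two retracts. -/
theorem rf_retract {B C I : Type} [Group B] [Group C] [Group I]
    (hB : Group.ResiduallyFinite B)
    (hC : ∀ (Q : Type) [Group Q] [Finite Q], Finite (C →* Q))
    (i0 i1 : C →* B) (ρ0 ρ1 : B →* C) (h0 : ∀ c, ρ0 (i0 c) = c) (h1 : ∀ c, ρ1 (i1 c) = c)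
    (ι : B →* I) (t : I) (hrel : ∀ c, t * ι (i1 c) * t⁻¹ = ι (i0 c))
    (hgen : Subgroup.closure (Set.range ι ∪ {t}) = ⊤)
    (huniv : ∀ (Ω : Type) [Finite Ω] (ψ : B →* Equiv.Perm Ω) (τ : Equiv.Perm Ω),
      (∀ c, τ * ψ (i1 c) = ψ (i0 c) * τ) →
        ∃ Φ : I →* Equiv.Perm Ω, (∀ b, Φ (ι b) = ψ b) ∧ Φ t = τ) :
    Group.ResiduallyFinite I := by
  classical
  refine criterion ι t i0 i1 hrel hgen huniv (fun T => ?_)
  obtain ⟨M, hM1, hM2, hM3⟩ := exists_common
    (P := fun (b : B) (N : Subgroup B) => b ≠ 1 → b ∉ N)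
    (fun b N N' hN hP hb hb' => hP hb (hN hb'))
    (fun b => by
      by_cases hb : b = 1
      · exact ⟨⊤, inferInstance, inferInstance, fun h => absurd hb h⟩
      · obtain ⟨N, h1, h2, h3⟩ := (rf_iff B).1 hB b hb
        exact ⟨N, h1, h2, fun _ => h3⟩)
    (T ∪ T.image (fun b => b * (i0 (ρ0 b))⁻¹) ∪ T.image (fun b => b * (i1 (ρ1 b))⁻¹))
  have : Finite (C →* B ⧸ M) := hC (B ⧸ M)
  let K : Subgroup C := ⨅ α : C →* B ⧸ M, α.ker
  have hKn : K.Normal := Subgroup.normal_iInf_normal fun α => inferInstance
  have hKf : K.FiniteIndex := Subgroup.finiteIndex_iInf fun α => Subgroup.finiteIndex_ker α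
  have hK : ∀ c ∈ K, ∀ α : C →* B ⧸ M, α c = 1 := fun c hc α =>
    MonoidHom.mem_ker.1 ((Subgroup.mem_iInf.1 hc) α)
  have hend : ∀ c ∈ K, ∀ β : C →* C, β c ∈ K := fun c hc β =>
    Subgroup.mem_iInf.2 fun α => MonoidHom.mem_ker.2 (hK c hc (α.comp β))
  have hM : ∀ c ∈ K, ∀ j : C →* B, j c ∈ M := fun c hc j => by
    have := hK c hc ((QuotientGroup.mk' M).comp j)
    exact (QuotientGroup.eq_one_iff _).1 this
  have hf0 : (K.comap ρ0).FiniteIndex := finIdx_comap ρ0 K
  have hf1 : (K.comap ρ1).FiniteIndex := finIdx_comap ρ1 K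
  refine ⟨M ⊓ (K.comap ρ0 ⊓ K.comap ρ1), inferInstance, inferInstance, ?_, ?_⟩
  · intro c
    have hc0 : i0 c ∈ M ⊓ (K.comap ρ0 ⊓ K.comap ρ1) ↔ c ∈ K := by
      refine ⟨fun h => ?_, fun h => ⟨hM c h i0, ?_, ?_⟩⟩
      · have h2 : ρ0 (i0 c) ∈ K := h.2.1
        rwa [h0] at h2
      · show ρ0 (i0 c) ∈ K
        rwa [h0]
      · exact hend c h (ρ1.comp i0)
    have hc1 : i1 c ∈ M ⊓ (K.comap ρ0 ⊓ K.comap ρ1) ↔ c ∈ K := by
      refine ⟨fun h => ?_, fun h => ⟨hM c h i1, ?_, ?_⟩⟩
      · have h2 : ρ1 (i1 c) ∈ K := h.2.2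
        rwa [h1] at h2
      · exact hend c h (ρ0.comp i1)
      · show ρ1 (i1 c) ∈ K
        rwa [h1]
    rw [hc0, hc1]
  · intro b hb
    refine ⟨fun h2 h3 => hM3 b (by simp [hb]) h2 h3.1, ?_, ?_⟩
    · intro hne c hc
      have h2 : ρ0 (b * (i0 c)⁻¹) ∈ K := hc.2.1
      rw [map_mul, map_inv, h0] at h2
      have h3 := hM _ h2 i0
      refine hM3 (b * (i0 (ρ0 b))⁻¹) (by
        simp only [Finset.mem_union, Finset.mem_image]
        exact Or.inl (Or.inr ⟨b, hb, rfl⟩)) (fun h => hne (ρ0 b) (mul_inv_eq_one.1 h)) ?_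
      have h4 := M.mul_mem hc.1 (M.inv_mem h3)
      have h5 : b * (i0 c)⁻¹ * (i0 (ρ0 b * c⁻¹))⁻¹ = b * (i0 (ρ0 b))⁻¹ := by
        rw [map_mul, map_inv]
        group
      rwa [h5] at h4
    · intro hne c hc
      have h2 : ρ1 (b * (i1 c)⁻¹) ∈ K := hc.2.2
      rw [map_mul, map_inv, h1] at h2
      have h3 := hM _ h2 i1
      refine hM3 (b * (i1 (ρ1 b))⁻¹) (by
        simp only [Finset.mem_union, Finset.mem_image]
        exact Or.inr ⟨b, hb, rfl⟩) (fun h => hne (ρ1 b) (mul_inv_eq_one.1 h)) ?_
      have h4 := M.mul_mem hc.1 (M.inv_mem h3)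
      have h5 : b * (i1 c)⁻¹ * (i1 (ρ1 b * c⁻¹))⁻¹ = b * (i1 (ρ1 b))⁻¹ := by
        rw [map_mul, map_inv]
        group
      rwa [h5] at h4

theorem finite_hom {X : Type} [Finite X] (Q : Type) [Group Q] [Finite Q] :
    Finite (FreeGroup X →* Q) :=
  Finite.of_equiv (X → Q) FreeGroup.lift

/-- a homomorphism from a one-relator group -/
def toG {X G : Type} [Group G] (w : FreeGroup X) (f : X → G) (h : FreeGroup.lift f w = 1) :
    PresentedGroup ({w} : Set (FreeGroup X)) →* G :=
  PresentedGroup.toGroup (f := f) (by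
    rintro r hr
    rw [Set.mem_singleton_iff.1 hr]
    exact h)

theorem toG_of {X G : Type} [Group G] (w : FreeGroup X) (f : X → G)
    (h : FreeGroup.lift f w = 1) (x : X) : toG w f h (PresentedGroup.of x) = f x :=
  PresentedGroup.toGroup.of _

theorem toG_mk {X G : Type} [Group G] (w : FreeGroup X) (f : X → G)
    (h : FreeGroup.lift f w = 1) (v : FreeGroup X) :
    toG w f h (PresentedGroup.mk _ v) = FreeGroup.lift f v := by
  have : (toG w f h).comp (PresentedGroup.mk _) = FreeGroup.lift f := by
    ext x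
    rw [FreeGroup.lift_apply_of]
    exact toG_of w f h x
  exact DFunLike.congr_fun this v

theorem mk_rel {X : Type} (w : FreeGroup X) :
    PresentedGroup.mk ({w} : Set (FreeGroup X)) w = 1 :=
  PresentedGroup.one_of_mem (Set.mem_singleton w)

theorem mk_eq_lift {X : Type} (rels : Set (FreeGroup X)) (v : FreeGroup X) :
    PresentedGroup.mk rels v = FreeGroup.lift (fun x => (PresentedGroup.of x :
      PresentedGroup rels)) v := by
  have : PresentedGroup.mk rels = FreeGroup.lift (fun x => (PresentedGroup.of x :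
      PresentedGroup rels)) := by
    ext x
    rw [FreeGroup.lift_apply_of]
    rfl
  exact DFunLike.congr_fun this v

theorem rf_trivial {X : Type} : Group.ResiduallyFinite (PresentedGroup ({1} : Set (FreeGroup X))) := by
  let f := toG (1 : FreeGroup X) (fun x => FreeGroup.of x) (map_one _)
  refine rf_of_injective f ?_ (free_rf X)
  have h : (PresentedGroup.mk ({1} : Set (FreeGroup X))).comp f = MonoidHom.id _ := by
    apply PresentedGroup.ext
    intro x
    rw [MonoidHom.comp_apply, toG_of]
    rfl
  intro a b hab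
  have h2 := congrArg (PresentedGroup.mk ({1} : Set (FreeGroup X))) hab
  have h3 : ∀ x, PresentedGroup.mk ({1} : Set (FreeGroup X)) (f x) = x :=
    fun x => DFunLike.congr_fun h x
  rwa [h3, h3] at h2

/-- words in the old letters -/
def old {X : Type} : FreeGroup X →* FreeGroup (Option X) := FreeGroup.map some

/-- `⟨X, c; [r, c]⟩` -/
theorem rf_E {X : Type} (r : FreeGroup X) (hr : r ≠ 1) :
    Group.ResiduallyFinite (PresentedGroup ({⁅old r, FreeGroup.of none⁆} :
      Set (FreeGroup (Option X)))) := by
  set w : FreeGroup (Option X) := ⁅old r, FreeGroup.of none⁆ with hw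
  let ι : FreeGroup X →* PresentedGroup ({w} : Set (FreeGroup (Option X))) :=
    (PresentedGroup.mk _).comp old
  refine rf_central (free_rf X) (free_potent r hr) ι (PresentedGroup.of none) ?_ ?_ ?_
  · have h := mk_rel w
    rw [hw, map_commutatorElement, commutatorElement_eq_one_iff_mul_comm] at h
    have h2 : ι r * PresentedGroup.of none = PresentedGroup.of none * ι r := h
    rw [← h2, mul_inv_cancel_right]
  · rw [eq_top_iff, ← PresentedGroup.closure_range_of, Subgroup.closure_le]
    rintro _ ⟨x, rfl⟩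
    cases x with
    | none => exact Subgroup.subset_closure (Or.inr rfl)
    | some x =>
      refine Subgroup.subset_closure (Or.inl ⟨FreeGroup.of x, ?_⟩)
      show PresentedGroup.mk _ (old (FreeGroup.of x)) = _
      rw [old, FreeGroup.map.of]
      rfl
  · intro Ω _ ψ τ h
    let f : Option X → Equiv.Perm Ω := fun o => o.elim τ fun x => ψ (FreeGroup.of x)
    have hf : ∀ v, FreeGroup.lift f (old v) = ψ v := by
      intro v
      have : (FreeGroup.lift f).comp old = ψ := by
        ext1 x
        rw [MonoidHom.comp_apply, old, FreeGroup.map.of, FreeGroup.lift_apply_of]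
        rfl
      exact DFunLike.congr_fun this v
    have hr1 : FreeGroup.lift f w = 1 := by
      rw [hw, map_commutatorElement, hf, FreeGroup.lift_apply_of,
        commutatorElement_eq_one_iff_mul_comm]
      exact h.symm
    refine ⟨toG w f hr1, fun b => ?_, toG_of w f hr1 none⟩
    show toG w f hr1 (PresentedGroup.mk _ (old b)) = _
    rw [toG_mk, hf]

/-- `⟨X, t; [r, t⁻¹ s t]⟩` -/
theorem rf_I0 {X : Type} (r s : FreeGroup X) (hr : r ≠ 1) (hs : s ≠ 1) :
    Group.ResiduallyFinite (PresentedGroup
      ({⁅old r, (FreeGroup.of none)⁻¹ * old s * FreeGroup.of none⁆} :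
      Set (FreeGroup (Option X)))) := by
  set w : FreeGroup (Option X) := ⁅old r, (FreeGroup.of none)⁻¹ * old s * FreeGroup.of none⁆
    with hw
  set e : FreeGroup (Option X) := ⁅old r, FreeGroup.of none⁆ with he
  -- retraction on the free group and on the infinite cyclic group
  let fρ : Option X → FreeGroup X := fun o => o.elim 1 fun x => FreeGroup.of x
  have hfρ : ∀ v, FreeGroup.lift fρ (old v) = v := by
    intro v
    have : (FreeGroup.lift fρ).comp old = MonoidHom.id _ := by
      ext1 x
      rw [MonoidHom.comp_apply, old, FreeGroup.map.of, FreeGroup.lift_apply_of]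
      rfl
    exact DFunLike.congr_fun this v
  have hρ1 : FreeGroup.lift fρ e = 1 := by
    rw [he, map_commutatorElement, FreeGroup.lift_apply_of]
    exact commutatorElement_one_right _
  let fχ : Option X → Multiplicative ℤ := fun o => o.elim (Multiplicative.ofAdd 1) fun _ => 1
  have hχ1 : FreeGroup.lift fχ e = 1 := by
    rw [he, map_commutatorElement, commutatorElement_eq_one_iff_mul_comm, mul_comm]
  have hfχ : ∀ v, FreeGroup.lift fχ (old v) = 1 := by
    intro v
    have : (FreeGroup.lift fχ).comp old = 1 := by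
      ext1 x
      rw [MonoidHom.comp_apply, old, FreeGroup.map.of, FreeGroup.lift_apply_of]
      rfl
    exact DFunLike.congr_fun this v
  -- the embedding
  let fι : Option X → PresentedGroup ({w} : Set (FreeGroup (Option X))) := fun o =>
    o.elim ((PresentedGroup.of none)⁻¹ * PresentedGroup.mk _ (old s) * PresentedGroup.of none)
      fun x => PresentedGroup.of (some x)
  have hfι : ∀ v, FreeGroup.lift fι (old v) = PresentedGroup.mk _ (old v) := by
    intro v
    have : (FreeGroup.lift fι).comp old = (PresentedGroup.mk _).comp old := by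
      ext1 x
      rw [MonoidHom.comp_apply, MonoidHom.comp_apply, old, FreeGroup.map.of,
        FreeGroup.lift_apply_of]
      rfl
    exact DFunLike.congr_fun this v
  have hι1 : FreeGroup.lift fι e = 1 := by
    rw [he, map_commutatorElement, hfι, FreeGroup.lift_apply_of]
    have h := mk_rel w
    rw [hw, map_commutatorElement, map_mul, map_mul, map_inv] at h
    exact h
  refine rf_cyclic (rf_E r hr) (PresentedGroup.mk _ (old s)) (PresentedGroup.of none)
    (toG e fχ hχ1) (toG_of _ _ _ _) (by rw [toG_mk, hfχ]) (toG e fρ hρ1) (toG_of _ _ _ _)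
    (by rw [toG_mk, hfρ]; exact free_potent s hs) (toG e fι hι1) (PresentedGroup.of none) ?_ ?_ ?_
  · rw [toG_of, toG_mk, hfι]
    show PresentedGroup.of none * ((PresentedGroup.of none)⁻¹ * PresentedGroup.mk _ (old s) *
      PresentedGroup.of none) * (PresentedGroup.of none)⁻¹ = _
    group
  · rw [eq_top_iff, ← PresentedGroup.closure_range_of, Subgroup.closure_le]
    rintro _ ⟨x, rfl⟩
    cases x with
    | none => exact Subgroup.subset_closure (Or.inr rfl)
    | some x => exact Subgroup.subset_closure (Or.inl ⟨PresentedGroup.of (some x), toG_of _ _ _ _⟩)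
  · intro Ω _ ψ τ h
    let f : Option X → Equiv.Perm Ω := fun o => o.elim τ fun x => ψ (PresentedGroup.of (some x))
    have hf : ∀ v, FreeGroup.lift f (old v) = ψ (PresentedGroup.mk _ (old v)) := by
      intro v
      have : (FreeGroup.lift f).comp old = ψ.comp ((PresentedGroup.mk _).comp old) := by
        ext1 x
        show FreeGroup.lift f (FreeGroup.map some (FreeGroup.of x)) =
          ψ (PresentedGroup.mk _ (FreeGroup.map some (FreeGroup.of x)))
        rw [FreeGroup.map.of, FreeGroup.lift_apply_of]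
        rfl
      exact DFunLike.congr_fun this v
    have hc : ψ (PresentedGroup.of none) = τ⁻¹ * ψ (PresentedGroup.mk _ (old s)) * τ := by
      rw [mul_assoc, ← h, inv_mul_cancel_left]
    have hw1 : FreeGroup.lift f w = 1 := by
      rw [hw, map_commutatorElement, map_mul, map_mul, map_inv, hf, hf, FreeGroup.lift_apply_of]
      show ⁅ψ (PresentedGroup.mk _ (old r)), τ⁻¹ * ψ (PresentedGroup.mk _ (old s)) * τ⁆ = 1
      rw [← hc, ← map_commutatorElement]
      have h2 := mk_rel e
      rw [he, map_commutatorElement] at h2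
      show ψ ⁅PresentedGroup.mk _ (old r), PresentedGroup.mk _ (FreeGroup.of none)⁆ = 1
      rw [h2, map_one]
    refine ⟨toG w f hw1, fun b => ?_, toG_of w f hw1 none⟩
    have : (toG w f hw1).comp (toG e fι hι1) = ψ := by
      apply PresentedGroup.ext
      intro x
      rw [MonoidHom.comp_apply, toG_of]
      cases x with
      | some x => exact toG_of w f hw1 (some x)
      | none =>
        show toG w f hw1 ((PresentedGroup.of none)⁻¹ * PresentedGroup.mk _ (old s) *
          PresentedGroup.of none) = _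
        rw [map_mul, map_mul, map_inv, toG_of, toG_mk, hf, hc]
        rfl
    exact DFunLike.congr_fun this b

/-- Relators in disjoint sets of letters. -/
theorem rf_disjoint {X : Type} (S : Set X) (r s : FreeGroup X)
    (hr : r ∈ Subgroup.closure (FreeGroup.of '' S))
    (hs : s ∈ Subgroup.closure (FreeGroup.of '' Sᶜ)) :
    Group.ResiduallyFinite (PresentedGroup ({⁅r, s⁆} : Set (FreeGroup X))) := by
  classical
  by_cases hr1 : r = 1
  · rw [hr1, commutatorElement_one_left]
    exact rf_trivial
  by_cases hs1 : s = 1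
  · rw [hs1, commutatorElement_one_right]
    exact rf_trivial
  set w : FreeGroup (Option X) := ⁅old r, (FreeGroup.of none)⁻¹ * old s * FreeGroup.of none⁆
    with hw
  let f : X → PresentedGroup ({w} : Set (FreeGroup (Option X))) := fun x =>
    if x ∈ S then PresentedGroup.of (some x) else
      (PresentedGroup.of none)⁻¹ * PresentedGroup.of (some x) * PresentedGroup.of none
  have hfr : FreeGroup.lift f r = PresentedGroup.mk _ (old r) := by
    clear_value w
    clear hw hr1
    induction hr using Subgroup.closure_induction with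
    | mem x hx =>
      obtain ⟨x, hx, rfl⟩ := hx
      rw [FreeGroup.lift_apply_of, old, FreeGroup.map.of]
      simp only [f, if_pos hx]
      rfl
    | one => simp
    | mul a b _ _ ha hb => rw [map_mul, map_mul, map_mul, ha, hb]
    | inv a _ ha => rw [map_inv, map_inv, map_inv, ha]
  have hfs : FreeGroup.lift f s = (PresentedGroup.of none)⁻¹ * PresentedGroup.mk _ (old s) *
      PresentedGroup.of none := by
    clear_value w
    clear hw hs1
    induction hs using Subgroup.closure_induction with
    | mem x hx =>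
      obtain ⟨x, hx, rfl⟩ := hx
      rw [FreeGroup.lift_apply_of, old, FreeGroup.map.of]
      simp only [f, if_neg hx]
      rfl
    | one => simp
    | mul a b _ _ ha hb =>
      rw [map_mul, map_mul, map_mul, ha, hb]
      group
    | inv a _ ha =>
      rw [map_inv, map_inv, map_inv, ha]
      group
  have h1 : FreeGroup.lift f ⁅r, s⁆ = 1 := by
    rw [map_commutatorElement, hfr, hfs]
    have h := mk_rel w
    rw [hw, map_commutatorElement, map_mul, map_mul, map_inv] at h
    exact h
  let g : Option X → PresentedGroup ({⁅r, s⁆} : Set (FreeGroup X)) := fun o =>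
    o.elim 1 fun x => PresentedGroup.of x
  have hg : ∀ v, FreeGroup.lift g (old v) = PresentedGroup.mk _ v := by
    intro v
    have : (FreeGroup.lift g).comp old = PresentedGroup.mk _ := by
      ext1 x
      rw [MonoidHom.comp_apply, old, FreeGroup.map.of, FreeGroup.lift_apply_of]
      rfl
    exact DFunLike.congr_fun this v
  have hg1 : FreeGroup.lift g w = 1 := by
    rw [hw, map_commutatorElement, map_mul, map_mul, map_inv, hg, hg, FreeGroup.lift_apply_of]
    show ⁅PresentedGroup.mk _ r, (1 : PresentedGroup _)⁻¹ * PresentedGroup.mk _ s * 1⁆ = 1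
    rw [inv_one, one_mul, mul_one, ← map_commutatorElement]
    exact mk_rel _
  refine rf_of_injective (toG _ f h1) ?_ (rf_I0 r s hr1 hs1)
  have h : (toG w g hg1).comp (toG _ f h1) = MonoidHom.id _ := by
    apply PresentedGroup.ext
    intro x
    rw [MonoidHom.comp_apply, toG_of]
    by_cases hx : x ∈ S
    · simp only [f, if_pos hx]
      rw [toG_of]
      rfl
    · simp only [f, if_neg hx]
      rw [map_mul, map_mul, map_inv, toG_of, toG_of]
      show (1 : PresentedGroup _)⁻¹ * PresentedGroup.of x * 1 = _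
      rw [inv_one, one_mul, mul_one]
      rfl
  intro a b hab
  have h2 := congrArg (toG w g hg1) hab
  have h3 : ∀ x, (toG w g hg1) (toG _ f h1 x) = x := fun x => DFunLike.congr_fun h x
  rwa [h3, h3] at h2

end Pool.Agent.MP3f0e40
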